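import Pool.Agent.H453.EN.Shape

/-! Analytic continuation of the incomplete and of the complete `L`-series. -/

set_option autoImplicit false

namespace Pool.Agent.H453.EN

open NumberField IsDedekindDomain Complex
open Pool.Agent.H341R2.EC
open Pool.Agent.R433.MD
open Pool.Agent.R333.BR (lf_one)
open Pool.Agent.N19.BR (lf_ne_zero_one)
open Pool.Agent.H453.BS (Nice nice_lf)
open Pool.Agent.H453.MC (twist_elliptic)

section
variable {K : Type} [Field K] [NumberField K]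

theorem analytic_lf (V : HeightOneSpectrum (𝓞 K) → WeierstrassCurve (𝓞 K))
    (v : HeightOneSpectrum (𝓞 K)) (s : ℂ) : AnalyticAt ℂ (fun s => lf V s v) s := by
  have h0 : ((Pool.Agent.H921R2.TatePole.nm v : ℕ) : ℂ) ≠ 0 := by
    have := Pool.Agent.H921R2.TatePole.two_le_nm v
    exact_mod_cast (by omega : Pool.Agent.H921R2.TatePole.nm v ≠ 0)
  have h1 : Differentiable ℂ (fun s : ℂ => lf V s v) := by
    intro z
    unfold lf
    have e1 : DifferentiableAt ℂ (fun s : ℂ =>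
        ((Pool.Agent.H921R2.TatePole.nm v : ℕ) : ℂ) ^ (-s)) z :=
      (differentiableAt_id.neg).const_cpow (Or.inl h0)
    have e2 : DifferentiableAt ℂ (fun s : ℂ =>
        ((Pool.Agent.H921R2.TatePole.nm v : ℕ) : ℂ) ^ (1 - 2 * s)) z :=
      ((differentiableAt_const _).sub ((differentiableAt_const _).mul differentiableAt_id)).const_cpow
        (Or.inl h0)
    exact ((differentiableAt_const _).sub ((differentiableAt_const _).mul e1)).add
      ((differentiableAt_const _).mul e2)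
  exact h1.analyticAt s

open scoped Classical in
/-- more primes omitted -/
theorem LN_dvd {E : WeierstrassCurve K} (hE : E.IsElliptic)
    {V : HeightOneSpectrum (𝓞 K) → WeierstrassCurve (𝓞 K)} (hV : ∀ v, IsMinAt E v (V v))
    {N N' : ℕ} (hN' : N' ≠ 0) (h : N ∣ N') {s : ℂ} (hs : 3 / 2 < s.re) :
    LN N' V s = LN N V s * ∏ v ∈ (finite_dv (K := K) hN').toFinset.filter (fun v => ¬ Dv N v),
      lf V s v := by
  have hN : N ≠ 0 := fun h0 => hN' (by rw [h0] at h; exact Nat.eq_zero_of_zero_dvd h)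
  rw [LN_eq hE hV hN' hs, LN_eq hE hV hN hs, mul_assoc]
  congr 1
  have h1 : (finite_dv (K := K) hN).toFinset =
      (finite_dv (K := K) hN').toFinset.filter (fun v => Dv N v) := by
    ext v
    rw [Finset.mem_filter, Set.Finite.mem_toFinset, Set.Finite.mem_toFinset]
    exact ⟨fun hv => ⟨dv_of_dvd h hv, hv⟩, fun hv => hv.2⟩
  rw [h1, Finset.prod_filter_mul_prod_filter_not]

end

section
variable {k : Type} [Field k] [NumberField k]

/-- continuation of the incomplete `L`-series -/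
theorem cont_incomplete {n : ℕ} {K : Ext k} (h : FacN n K) (E : WeierstrassCurve k)
    (hE : E.IsElliptic) {U : Set ℂ}
    (hc : ∀ Z : Ext k, Module.finrank k Z.F < n → ∀ D : 𝓞 Z.F, D ≠ 0 →
      ∃ N : ℕ, N ≠ 0 ∧ ∃ Λ : ℂ → ℂ, AnalyticOnNhd ℂ Λ U ∧
        ∀ W : HeightOneSpectrum (𝓞 Z.F) → WeierstrassCurve (𝓞 Z.F),
          (∀ v, IsMinAt (twist (E.map (algebraMap k Z.F)) (D : Z.F)) v (W v)) →
          ∀ s : ℂ, 3 / 2 < s.re → Λ s = LN N W s) :
    ∃ N : ℕ, N ≠ 0 ∧ ∃ Λ : ℂ → ℂ, AnalyticOnNhd ℂ Λ U ∧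
      ∀ V : HeightOneSpectrum (𝓞 K.F) → WeierstrassCurve (𝓞 K.F),
        (∀ v, IsMinAt (E.map (algebraMap k K.F)) v (V v)) →
        ∀ s : ℂ, 3 / 2 < s.re → Λ s = LN N V s := by
  classical
  obtain ⟨ι, hι, Z, D, hZ, -, hL⟩ := h
  have hEK : (E.map (algebraMap k K.F)).IsElliptic := inferInstance
  have hT : ∀ i, (twist (E.map (algebraMap k (Z i).F)) (D i : (Z i).F)).IsElliptic := fun i =>
    twist_elliptic inferInstance (by
      rw [Ne, FaithfulSMul.algebraMap_eq_zero_iff]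
      exact (hZ i).1)
  obtain ⟨V, hV⟩ := exists_minimal (E.map (algebraMap k K.F)) hEK
  choose W hW using fun i => exists_minimal _ (hT i)
  choose Ni hNi Λ hΛ hΛL using fun i => hc (Z i) (hZ i).2 (D i) (hZ i).1
  obtain ⟨N0, hN0, hrel⟩ := hL E hE V hV W hW
  set N := N0 * ∏ i, Ni i with hN
  have hN' : N ≠ 0 := mul_ne_zero hN0 (Finset.prod_ne_zero_iff.2 fun i _ => hNi i)
  have hdvd : ∀ i, Ni i ∣ N := fun i =>
    (Finset.dvd_prod_of_mem Ni (Finset.mem_univ i)).trans (dvd_mul_left _ _)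
  refine ⟨N, hN', fun s => ∏ i, (Λ i s * ∏ v ∈ (finite_dv (K := (Z i).F) hN').toFinset.filter
    (fun v => ¬ Dv (Ni i) v), lf (W i) s v), fun s hs => ?_, fun V' hV' s hs => ?_⟩
  · exact Finset.analyticAt_fun_prod _ fun i _ => (hΛ i s hs).fun_mul
      (Finset.analyticAt_fun_prod _ fun v _ => analytic_lf (W i) v s)
  · rw [LN_minimal hEK hV' hV, hrel N hN' (dvd_mul_right _ _) s hs]
    refine Finset.prod_congr rfl fun i _ => ?_
    rw [hΛL i (W i) (hW i) s hs, LN_dvd (hT i) (hW i) hN' (hdvd i) hs]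

/-- continuation of the complete `L`-series -/
theorem cont_complete {n : ℕ} {K : Ext k} (h : FacN n K) (E : WeierstrassCurve k)
    (hE : E.IsElliptic) {U : Set ℂ} (hU : ∀ s ∈ U, 1 < s.re ∨ s = 1)
    (hc : ∀ Z : Ext k, Module.finrank k Z.F < n → ∀ D : 𝓞 Z.F, D ≠ 0 →
      ∃ Λ : ℂ → ℂ, AnalyticOnNhd ℂ Λ U ∧
        ∀ W : HeightOneSpectrum (𝓞 Z.F) → WeierstrassCurve (𝓞 Z.F),
          (∀ v, IsMinAt (twist (E.map (algebraMap k Z.F)) (D : Z.F)) v (W v)) →
          ∀ s : ℂ, 3 / 2 < s.re → Λ s = LL W s) :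
    ∃ Λ : ℂ → ℂ, AnalyticOnNhd ℂ Λ U ∧
      ∀ V : HeightOneSpectrum (𝓞 K.F) → WeierstrassCurve (𝓞 K.F),
        (∀ v, IsMinAt (E.map (algebraMap k K.F)) v (V v)) →
        ∀ s : ℂ, 3 / 2 < s.re → Λ s = LL V s := by
  classical
  obtain ⟨ι, hι, Z, D, hZ, -, hL⟩ := h
  have hEK : (E.map (algebraMap k K.F)).IsElliptic := inferInstance
  have hT : ∀ i, (twist (E.map (algebraMap k (Z i).F)) (D i : (Z i).F)).IsElliptic := fun i =>
    twist_elliptic inferInstance (by
      rw [Ne, FaithfulSMul.algebraMap_eq_zero_iff]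
      exact (hZ i).1)
  obtain ⟨V, hV⟩ := exists_minimal (E.map (algebraMap k K.F)) hEK
  choose W hW using fun i => exists_minimal _ (hT i)
  choose Λ hΛ hΛL using fun i => hc (Z i) (hZ i).2 (D i) (hZ i).1
  obtain ⟨N, hN, hrel⟩ := hL E hE V hV W hW
  have hne : ∀ s : ℂ, (1 < s.re ∨ s = 1) → ∀ v, lf V s v ≠ 0 := by
    rintro s (hs | rfl) v
    · exact lf_ne_zero_one V hs v
    · exact lf_one V v
  refine ⟨fun s => (∏ i, (Λ i s * ∏ v ∈ (finite_dv (K := (Z i).F) hN).toFinset, lf (W i) s v)) /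
    ∏ v ∈ (finite_dv (K := K.F) hN).toFinset, lf V s v, fun s hs => ?_, fun V' hV' s hs => ?_⟩
  · refine AnalyticAt.fun_div (Finset.analyticAt_fun_prod _ fun i _ => (hΛ i s hs).fun_mul
      (Finset.analyticAt_fun_prod _ fun v _ => analytic_lf (W i) v s))
      (Finset.analyticAt_fun_prod _ fun v _ => analytic_lf V v s)
      (Finset.prod_ne_zero_iff.2 fun v _ => hne s (hU s hs) v)
  · have h1 := hrel N hN dvd_rfl s hs
    rw [LN_eq hEK hV hN hs] at h1
    have h2 : LL V' s = LL V s := Pool.Agent.N19.BR.LL_minimal hEK hV' hV s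
    have h3 : ∏ v ∈ (finite_dv (K := K.F) hN).toFinset, lf V s v ≠ 0 :=
      Finset.prod_ne_zero_iff.2 fun v _ => lf_ne_zero_one V (by linarith) v
    change (∏ i, (Λ i s * ∏ v ∈ (finite_dv (K := (Z i).F) hN).toFinset, lf (W i) s v)) /
      ∏ v ∈ (finite_dv (K := K.F) hN).toFinset, lf V s v = LL V' s
    rw [div_eq_iff h3, h2, h1]
    refine Finset.prod_congr rfl fun i _ => ?_
    rw [hΛL i (W i) (hW i) s hs, LN_eq (hT i) (hW i) hN hs]

end

end Pool.Agent.H453.EN
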