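import Pool.Agent.H453.MC.Ind

/-! Permutation characters as sums of characters induced from characters of order two. -/

set_option autoImplicit false

namespace Pool.Agent.H453.EN

open scoped LinearAlgebra.Projectivization
open Pool.Agent.R433.MD (fx fixed_mem)
open Pool.Agent.H453.MC
open Module

theorem units2 (u : (ZMod 2)ˣ) : u = 1 := by
  revert u
  decide

theorem zmod2_one (c : ZMod 2) (h : c ≠ 0) : c = 1 := by
  revert c
  decide

/-- fixed points and representatives of the orbits -/
theorem fix_sum {G Y : Type} [Group G] [Finite G] [MulAction G Y] [Finite Y] {J : Type} [Fintype J]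
    (y : J → Y) (h : ∀ P : Y, ∃! j, P ∈ MulAction.orbit G (y j)) (g : G) :
    (Nat.card {P : Y // g • P = P} : ℤ) = ∑ j, fx (MulAction.stabilizer G (y j)) g := by
  classical
  let T : (j : J) × G ⧸ MulAction.stabilizer G (y j) → Y :=
    fun p => MulAction.ofQuotientStabilizer G (y p.1) p.2
  have hTorb : ∀ p, T p ∈ MulAction.orbit G (y p.1) := fun p =>
    MulAction.ofQuotientStabilizer_mem_orbit G _ _
  have hT : Function.Bijective T := by
    constructor
    · rintro ⟨j, c⟩ ⟨j', c'⟩ hcc
      have h1 := hTorb ⟨j, c⟩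
      have h2 := hTorb ⟨j', c'⟩
      rw [← hcc] at h2
      obtain rfl : j = j' := (h _).unique h1 h2
      exact congrArg _ (MulAction.injective_ofQuotientStabilizer G _ hcc)
    · intro P
      obtain ⟨j, ⟨x, hx⟩, -⟩ := h P
      exact ⟨⟨j, (x : G ⧸ MulAction.stabilizer G (y j))⟩, hx⟩
  have e1 : {P : Y // g • P = P} ≃ (j : J) × {c : G ⧸ MulAction.stabilizer G (y j) // g • c = c} :=
    (Equiv.subtypeEquiv (Equiv.ofBijective T hT) (p := fun p => g • p.2 = p.2) (fun p => by
      rw [Equiv.ofBijective_apply]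
      change g • p.2 = p.2 ↔ g • MulAction.ofQuotientStabilizer G (y p.1) p.2 =
        MulAction.ofQuotientStabilizer G (y p.1) p.2
      rw [← MulAction.ofQuotientStabilizer_smul]
      exact (MulAction.injective_ofQuotientStabilizer G _).eq_iff.symm)).symm.trans
    { toFun := fun p => ⟨p.1.1, p.1.2, p.2⟩
      invFun := fun p => ⟨⟨p.1, p.2.1⟩, p.2.2⟩
      left_inv := fun _ => rfl
      right_inv := fun _ => rfl }
  rw [Nat.card_congr e1, Nat.card_sigma]
  push_cast
  rfl

/-- The permutation character on the cosets of `H` is the sum of the one on the cosets of `T` and of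
characters induced from characters of order two of the subgroups `S j`; the indices of `T` and `S j` are
less than `n`. -/
def Pos {G : Type} [Group G] (n : ℕ) (H : Subgroup G) : Prop :=
  ∃ (J : Type) (_ : Fintype J) (T : Subgroup G) (S S' : J → Subgroup G), T.index < n ∧
    (∀ j, S' j ≤ S j ∧ (S' j).relIndex (S j) = 2 ∧ (S j).index < n) ∧
    ∀ g, fx H g = fx T g + ∑ j, (fx (S' j) g - fx (S j) g)

/-- **Groups with an elementary abelian normal supplement.** -/
theorem affine_pos {G : Type} [Group G] [Finite G] (H A : Subgroup G)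
    [A.Normal] (hcomm : ∀ a ∈ A, ∀ b ∈ A, a * b = b * a) (hexp : ∀ a ∈ A, a ^ 2 = 1)
    (htop : A ⊔ H = ⊤) (hAH : ¬ A ≤ H) : Pos H.index H := by
  classical
  have _ : Fact (Nat.Prime 2) := ⟨Nat.prime_two⟩
  obtain ⟨V, _, _, _, L, t, q, ht, hqs, hqadd, hqeq, htq, hLA, hLq, hfx, hcard⟩ :=
    exists_affine (p := 2) H A hcomm hexp htop
  have hfin : Finite (Dual (ZMod 2) V) := Module.finite_of_finite (ZMod 2)
  let _ := actD L
  let _ := actA L t ht
  have : SMulCommClass G (ZMod 2) (Dual (ZMod 2) V) := ⟨fun g c f => rfl⟩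
  have : SMulCommClass G (ZMod 2) (Dual (ZMod 2) V × ZMod 2) := ⟨fun g c F => Prod.ext rfl (by
      change c * F.2 + c * F.1 (t g⁻¹) = c * (F.2 + F.1 (t g⁻¹))
      ring)⟩
  -- the space is not trivial
  obtain ⟨a₀, ha₀A, ha₀H⟩ : ∃ a ∈ A, a ∉ H := by
    by_contra hcon
    push Not at hcon
    exact hAH hcon
  have hq1 : q 1 = 0 := by
    have h1 := hqadd 1 1
    rw [one_mul] at h1
    exact left_eq_add.1 h1
  have hVn : 1 < H.index := by
    rw [← hcard]
    have : Nontrivial V := by
      refine ⟨q ⟨a₀, ha₀A⟩, 0, fun h => ha₀H ?_⟩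
      rw [← hq1, hqeq] at h
      have h2 := H.inv_mem h
      simpa using h2
    exact Finite.one_lt_card
  have hdual : Nat.card (Dual (ZMod 2) V) = Nat.card V := by
    rw [Module.natCard_eq_pow_finrank (K := ZMod 2) (V := Dual (ZMod 2) V),
      Module.natCard_eq_pow_finrank (K := ZMod 2) (V := V), Subspace.dual_finrank_eq]
  -- small orbits on the hyperplanes
  have hS : ∀ (f : Dual (ZMod 2) V) (hf : f ≠ 0),
      (MulAction.stabilizer G (Projectivization.mk (ZMod 2) f hf)).index < H.index := by
    intro f hf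
    rw [MulAction.index_stabilizer]
    have h1 : (MulAction.orbit G (Projectivization.mk (ZMod 2) f hf)).ncard ≤
        Nat.card (ℙ (ZMod 2) (Dual (ZMod 2) V)) := Set.ncard_le_card _
    have h2 := Projectivization.card (ZMod 2) (Dual (ZMod 2) V)
    rw [hdual, hcard, Nat.card_zmod] at h2
    have h3 : Nat.card (ℙ (ZMod 2) (Dual (ZMod 2) V)) ≤ H.index - 1 := by
      rw [h2]
      exact Nat.le_mul_of_pos_right _ (by omega)
    omega
  -- units of `ZMod 2`
  have hunit : ∀ u : (ZMod 2)ˣ, u = 1 := units2
  have hmk : ∀ (F F' : Dual (ZMod 2) V × ZMod 2) (hF : F ≠ 0) (hF' : F' ≠ 0),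
      Projectivization.mk (ZMod 2) F hF = Projectivization.mk (ZMod 2) F' hF' ↔ F = F' := by
    intro F F' hF hF'
    rw [Projectivization.mk_eq_mk_iff]
    constructor
    · rintro ⟨u, hu⟩
      rw [hunit u, one_smul] at hu
      exact hu.symm
    · rintro rfl
      exact ⟨1, one_smul _ _⟩
  have hmk' : ∀ (F F' : Dual (ZMod 2) V) (hF : F ≠ 0) (hF' : F' ≠ 0),
      Projectivization.mk (ZMod 2) F hF = Projectivization.mk (ZMod 2) F' hF' ↔ F = F' := by
    intro F F' hF hF'
    rw [Projectivization.mk_eq_mk_iff]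
    constructor
    · rintro ⟨u, hu⟩
      rw [hunit u, one_smul] at hu
      exact hu.symm
    · rintro rfl
      exact ⟨1, one_smul _ _⟩
  -- representatives of the orbits of functionals
  let Q := MulAction.orbitRel.Quotient G (ℙ (ZMod 2) (Dual (ZMod 2) V))
  have : Finite Q := Quotient.finite _
  let _ : Fintype Q := Fintype.ofFinite Q
  let y : Q → ℙ (ZMod 2) (Dual (ZMod 2) V) := fun ω => ω.out
  have hy : ∀ P, ∃! ω : Q, P ∈ MulAction.orbit G (y ω) := by
    intro P
    refine ⟨(⟦P⟧ : Q), ?_, fun ω hω => ?_⟩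
    · exact Quotient.exact (Quotient.out_eq (⟦P⟧ : Q)).symm
    · rw [← Quotient.out_eq ω]
      exact (Quotient.sound hω).symm
  have hrep0 : ∀ ω, (y ω).rep ≠ 0 := fun ω => (y ω).rep_nonzero
  have hpair : ∀ ω, ((y ω).rep, (0 : ZMod 2)) ≠ 0 := fun ω h => hrep0 ω (congrArg Prod.fst h)
  have hone : ((0 : Dual (ZMod 2) V), (1 : ZMod 2)) ≠ 0 := fun h =>
    one_ne_zero (congrArg Prod.snd h)
  let z : Option Q → ℙ (ZMod 2) (Dual (ZMod 2) V × ZMod 2) := fun o =>
    match o with
    | none => Projectivization.mk (ZMod 2) _ hone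
    | some ω => Projectivization.mk (ZMod 2) _ (hpair ω)
  have hsmul : ∀ (g : G) (f : Dual (ZMod 2) V) (c : ZMod 2),
      g • ((f, c) : Dual (ZMod 2) V × ZMod 2) = (g • f, c + f (t g⁻¹)) := fun g f c => rfl
  have hA1 : ∀ (a : A) (f : Dual (ZMod 2) V), (a : G) • f = f := by
    intro a f
    refine LinearMap.ext fun v => ?_
    change f (L (a : G)⁻¹ v) = f v
    rw [map_inv, hLA, inv_one]
    rfl
  -- all affine functions with linear part in the orbit
  have horb : ∀ (f : Dual (ZMod 2) V) (hf : f ≠ 0) (c : ZMod 2) (hF : (f, c) ≠ 0) (ω : Q),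
      Projectivization.mk (ZMod 2) f hf ∈ MulAction.orbit G (y ω) →
      Projectivization.mk (ZMod 2) (f, c) hF ∈ MulAction.orbit G (z (some ω)) := by
    rintro f hf c hF ω ⟨g, hg⟩
    have hg1 : g • (y ω).rep = f := by
      have h1 : g • Projectivization.mk (ZMod 2) (y ω).rep (hrep0 ω) =
          Projectivization.mk (ZMod 2) f hf := by
        rw [Projectivization.mk_rep]
        exact hg
      rw [Projectivization.smul_mk, hmk'] at h1
      exact h1
    obtain ⟨v₁, hv₁⟩ : ∃ v, f v ≠ 0 := by
      by_contra hcon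
      push Not at hcon
      exact hf (LinearMap.ext hcon)
    -- translations by elements of `A`
    have htr : ∀ d : ZMod 2, ∃ a : A, f (t (a : G)⁻¹) = d := by
      intro d
      obtain ⟨a, ha⟩ := hqs ((d * (f v₁)⁻¹) • v₁)
      refine ⟨a⁻¹, ?_⟩
      have h1 : (((a⁻¹ : A) : G))⁻¹ = a := by push_cast; rw [inv_inv]
      rw [h1, htq, ha, map_smul, smul_eq_mul, mul_assoc, inv_mul_cancel₀ hv₁, mul_one]
    obtain ⟨a, ha⟩ := htr (c - (y ω).rep (t g⁻¹))
    refine ⟨(a : G) * g, ?_⟩
    change ((a : G) * g) • Projectivization.mk (ZMod 2) ((y ω).rep, (0 : ZMod 2)) (hpair ω) = _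
    rw [Projectivization.smul_mk, hmk, mul_smul, hsmul, hsmul, hg1, hA1, zero_add, ha]
    congr 1
    ring
  have hz : ∀ P, ∃! o : Option Q, P ∈ MulAction.orbit G (z o) := by
    intro P
    induction P using Projectivization.ind with
    | h w hw =>
      obtain ⟨f, c⟩ := w
      by_cases hf : f = 0
      · subst hf
        have hc : c = 1 :=
          zmod2_one c fun h => hw (by rw [h]; rfl)
        subst hc
        refine ⟨none, MulAction.mem_orbit_self _, fun o ho => ?_⟩
        match o with
        | none => rfl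
        | some ω =>
          exfalso
          obtain ⟨g, hg⟩ := ho
          change g • Projectivization.mk (ZMod 2) ((y ω).rep, (0 : ZMod 2)) (hpair ω) = _ at hg
          rw [Projectivization.smul_mk, hmk, hsmul] at hg
          have h1 : g • (y ω).rep = 0 := congrArg Prod.fst hg
          exact hrep0 ω ((smul_eq_zero_iff_eq g).1 h1)
      · obtain ⟨ω, hω, huniq⟩ := hy (Projectivization.mk (ZMod 2) f hf)
        refine ⟨some ω, horb f hf c hw ω hω, fun o ho => ?_⟩
        match o with
        | none =>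
          exfalso
          obtain ⟨g, hg⟩ := ho
          change g • Projectivization.mk (ZMod 2) ((0 : Dual (ZMod 2) V), (1 : ZMod 2)) hone = _
            at hg
          rw [Projectivization.smul_mk, hmk, hsmul, smul_zero] at hg
          exact hf (congrArg Prod.fst hg).symm
        | some ω' =>
          congr 1
          refine huniq ω' ?_
          obtain ⟨g, hg⟩ := ho
          change g • Projectivization.mk (ZMod 2) ((y ω').rep, (0 : ZMod 2)) (hpair ω') = _ at hg
          rw [Projectivization.smul_mk, hmk, hsmul] at hg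
          refine ⟨g, ?_⟩
          change g • y ω' = _
          rw [← Projectivization.mk_rep (y ω'), Projectivization.smul_mk, hmk']
          exact congrArg Prod.fst hg
  -- the stabilisers
  have hstab : MulAction.stabilizer G (z none) = ⊤ := by
    rw [eq_top_iff]
    intro g _
    rw [MulAction.mem_stabilizer_iff]
    change g • Projectivization.mk (ZMod 2) ((0 : Dual (ZMod 2) V), (1 : ZMod 2)) hone =
      Projectivization.mk (ZMod 2) _ hone
    rw [Projectivization.smul_mk, hmk, hsmul, smul_zero, LinearMap.zero_apply, add_zero]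
  have hrel : ∀ ω : Q, MulAction.stabilizer G (z (some ω)) ≤ MulAction.stabilizer G (y ω) ∧
      (MulAction.stabilizer G (z (some ω))).relIndex (MulAction.stabilizer G (y ω)) = 2 := by
    intro ω
    have hyω : y ω = Projectivization.mk (ZMod 2) (y ω).rep (hrep0 ω) :=
      (Projectivization.mk_rep _).symm
    obtain ⟨hle, hidx⟩ := index_le L t ht (y ω).rep (hrep0 ω) 0 (hpair ω)
    have hle' : MulAction.stabilizer G (z (some ω)) ≤ MulAction.stabilizer G (y ω) := by
      rw [hyω]
      exact hle
    refine ⟨hle', ?_⟩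
    set S := MulAction.stabilizer G (y ω) with hSdef
    set S' := MulAction.stabilizer G (z (some ω)) with hS'def
    have hidx' : S'.index ≤ 2 * S.index := by
      rw [hSdef, hyω]
      exact hidx
    have h0 : 0 < S.index := Nat.pos_of_ne_zero Subgroup.index_ne_zero_of_finite
    have h1 : S'.relIndex S * S.index = S'.index := Subgroup.relIndex_mul_index hle'
    have h2 : S'.relIndex S ≤ 2 := by
      rw [← h1] at hidx'
      exact Nat.le_of_mul_le_mul_right hidx' h0
    have h3 : S'.relIndex S ≠ 0 := by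
      intro h
      rw [h, zero_mul] at h1
      exact (Subgroup.index_ne_zero_of_finite : S'.index ≠ 0) h1.symm
    have h4 : S'.relIndex S ≠ 1 := by
      intro h
      rw [Subgroup.relIndex_eq_one] at h
      obtain ⟨v₁, hv₁⟩ : ∃ v, (y ω).rep v ≠ 0 := by
        by_contra hcon
        push Not at hcon
        exact hrep0 ω (LinearMap.ext hcon)
      obtain ⟨a, rfl⟩ := hqs v₁
      have hg : ((a : G)⁻¹ : G) ∈ S := by
        rw [MulAction.mem_stabilizer_iff, hyω, Projectivization.smul_mk, hmk']
        have h5 := hA1 a⁻¹ (y ω).rep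
        push_cast at h5
        exact h5
      have hg' := h hg
      rw [hS'def, MulAction.mem_stabilizer_iff] at hg'
      change ((a : G)⁻¹ : G) • Projectivization.mk (ZMod 2) ((y ω).rep, (0 : ZMod 2)) (hpair ω) =
        Projectivization.mk (ZMod 2) _ (hpair ω) at hg'
      rw [Projectivization.smul_mk, hmk, hsmul, inv_inv, htq, zero_add] at hg'
      exact hv₁ (congrArg Prod.snd hg')
    omega
  refine ⟨Q, inferInstance, ⊤, fun ω => MulAction.stabilizer G (y ω),
    fun ω => MulAction.stabilizer G (z (some ω)), by rw [Subgroup.index_top]; exact hVn,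
    fun ω => ⟨(hrel ω).1, (hrel ω).2, ?_⟩, fun g => ?_⟩
  · have h1 := hS (y ω).rep (hrep0 ω)
    rwa [Projectivization.mk_rep] at h1
  · have h1 : fx H g =
        (Nat.card {P : ℙ (ZMod 2) (Dual (ZMod 2) V × ZMod 2) // g • P = P} : ℤ) -
        (Nat.card {P : ℙ (ZMod 2) (Dual (ZMod 2) V) // g • P = P} : ℤ) := by
      rw [← affine_count L t ht g, ← hfx g]
      rfl
    rw [h1, fix_sum z hz g, fix_sum y hy g, Fintype.sum_option, hstab, Finset.sum_sub_distrib]
    ring

/-- **Induction.** -/
theorem pos_ind {G : Type} [Group G] [Finite G] (R : Subgroup G) {H : Subgroup R} {n : ℕ}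
    (h : Pos n H) : Pos (n * R.index) (H.map R.subtype) := by
  classical
  have : Fintype (G ⧸ R) := Fintype.ofFinite _
  obtain ⟨J, hJ, T, S, S', hT, hS, hfx⟩ := h
  have h0 : 0 < R.index := Nat.pos_of_ne_zero Subgroup.index_ne_zero_of_finite
  refine ⟨J, hJ, T.map R.subtype, fun j => (S j).map R.subtype, fun j => (S' j).map R.subtype, ?_,
    fun j => ⟨Subgroup.map_mono (hS j).1, ?_, ?_⟩, fun g => ?_⟩
  · rw [Subgroup.index_map_subtype]
    exact Nat.mul_lt_mul_of_pos_right hT h0
  · rw [Subgroup.relIndex_map_map_of_injective _ _ R.subtype_injective]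
    exact (hS j).2.1
  · rw [Subgroup.index_map_subtype]
    exact Nat.mul_lt_mul_of_pos_right (hS j).2.2 h0
  · simp only [fx_ind]
    simp only [← Finset.sum_sub_distrib]
    rw [Finset.sum_comm, ← Finset.sum_add_distrib]
    refine Finset.sum_congr rfl fun d _ => ?_
    split_ifs with h2
    · exact hfx _
    · simp

/-- **Groups with an elementary abelian normal 2-subgroup.** -/
theorem general_pos {G : Type} [Group G] [Finite G] (H A : Subgroup G)
    (hA : A.Normal) (hcomm : ∀ a ∈ A, ∀ b ∈ A, a * b = b * a) (hexp : ∀ a ∈ A, a ^ 2 = 1)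
    (hAH : ¬ A ≤ H) : Pos H.index H := by
  set R := A ⊔ H with hR
  have hAR : A ≤ R := le_sup_left
  have hHR : H ≤ R := le_sup_right
  have h1 := affine_pos (H.subgroupOf R) (A.subgroupOf R)
    (fun a ha b hb => Subtype.ext (hcomm a ha b hb)) (fun a ha => Subtype.ext (hexp a ha))
    (by rw [← Subgroup.subgroupOf_sup hAR hHR, Subgroup.subgroupOf_self])
    (fun h => hAH fun a ha => h (show (⟨a, hAR ha⟩ : R) ∈ A.subgroupOf R from ha))
  have h2 := pos_ind R h1
  rw [Subgroup.map_subgroupOf_eq_of_le hHR] at h2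
  have h3 : (H.subgroupOf R).index * R.index = H.index := Subgroup.relIndex_mul_index hHR
  rwa [h3] at h2

end Pool.Agent.H453.EN
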