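import Pool.Agent.H453.EN.Rel
import Pool.Agent.H453.EN.Pos
import Pool.Agent.H453.BS.Shape

/-! Fields over which the incomplete `L`-series of all elliptic curves are products of those of quadratic
twists over fields of smaller degree. -/

set_option autoImplicit false

namespace Pool.Agent.H453.EN

open NumberField IsDedekindDomain Complex Polynomial
open Pool.Agent.H341R2.EC
open Pool.Agent.R433.MD
open Pool.Agent.H453.MC (twist_elliptic isMinAt_one' exists_quad ext_restrict)

section
variable {K : Type} [Field K] [NumberField K]

/-- the incomplete `L`-series does not depend on the choice of the minimal models -/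
theorem LN_minimal {E : WeierstrassCurve K} (hE : E.IsElliptic)
    {V V' : HeightOneSpectrum (𝓞 K) → WeierstrassCurve (𝓞 K)} (hV : ∀ v, IsMinAt E v (V v))
    (hV' : ∀ v, IsMinAt E v (V' v)) (N : ℕ) (s : ℂ) : LN N V s = LN N V' s := by
  unfold LN
  refine tprod_congr fun v => ?_
  obtain ⟨h1, h2⟩ := aff_minimal v hE (hV v) (hV' v)
  have h3 : dlt V v = dlt V' v := by
    unfold dlt
    by_cases h : (V v).Δ ∈ v.asIdeal
    · rw [if_pos h, if_pos (h2.1 h)]
    · rw [if_neg h, if_neg fun h' => h (h2.2 h')]
  unfold ef lf trc
  rw [h1, h3]

end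

section
variable {k : Type} [Field k] [NumberField k]

/-- The incomplete `L`-series of `E / K` is a product of incomplete `L`-series of quadratic twists of `E`
over extensions of `k` of degree less than `n`, for all `E / k`. -/
def FacN (n : ℕ) (K : Ext k) : Prop :=
  ∃ (ι : Type) (_ : Fintype ι) (Z : ι → Ext k) (D : ∀ i, 𝓞 (Z i).F),
    (∀ i, D i ≠ 0 ∧ Module.finrank k (Z i).F < n) ∧
    ∑ i, Module.finrank k (Z i).F = Module.finrank k K.F ∧
    ∀ E : WeierstrassCurve k, E.IsElliptic →
      ∀ V : HeightOneSpectrum (𝓞 K.F) → WeierstrassCurve (𝓞 K.F),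
        (∀ v, IsMinAt (E.map (algebraMap k K.F)) v (V v)) →
      ∀ W : ∀ i, HeightOneSpectrum (𝓞 (Z i).F) → WeierstrassCurve (𝓞 (Z i).F),
        (∀ i v, IsMinAt (twist (E.map (algebraMap k (Z i).F)) (D i : (Z i).F)) v (W i v)) →
        ∃ N0 : ℕ, N0 ≠ 0 ∧ ∀ N : ℕ, N ≠ 0 → N0 ∣ N → ∀ s : ℂ, 3 / 2 < s.re →
          LN N V s = ∏ i, LN N (W i) s

theorem facN_restrict {m n : ℕ} (Z₀ : Ext k) (K : Ext Z₀.F) (h : FacN m K)
    (hmn : Module.finrank k Z₀.F * m ≤ n) : FacN n (Z₀.restrict K) := by
  obtain ⟨ι, hι, Z, D, hZ, hdeg, hL⟩ := h
  refine ⟨ι, hι, fun i => Z₀.restrict (Z i), fun i => D i, fun i => ⟨(hZ i).1, ?_⟩, ?_,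
    fun E hE V hV W hW => ?_⟩
  · rw [finrank_restrict]
    refine lt_of_lt_of_le ?_ hmn
    have : 0 < Module.finrank k Z₀.F := Module.finrank_pos
    exact Nat.mul_lt_mul_of_pos_left (hZ i).2 this
  · simp only [finrank_restrict]
    rw [← Finset.mul_sum, hdeg]
  · have hEZ : (E.map (algebraMap k Z₀.F)).IsElliptic := inferInstance
    refine hL (E.map (algebraMap k Z₀.F)) hEZ V (fun v => ?_) W (fun i v => ?_)
    · have h1 := hV v
      rw [map_restrict] at h1
      exact h1
    · have h1 := hW i v
      rw [map_restrict] at h1
      exact h1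

variable {M : Type} [Field M] [NumberField M] [Algebra k M] [IsGalois k M]

/-- **From permutation characters to incomplete `L`-series.** -/
theorem facN_of_pos {n : ℕ} (K : Ext k) (f : K.F →ₐ[k] M)
    (h : Pos n f.fieldRange.fixingSubgroup) : FacN n K := by
  classical
  obtain ⟨J, hJ, T, S, S', hT, hS, hfx⟩ := h
  have hidx : ∀ U : Subgroup Gal(M/k), Module.finrank k (IntermediateField.fixedField U) =
      U.index := by
    intro U
    rw [IntermediateField.finrank_eq_fixingSubgroup_index,
      IntermediateField.fixingSubgroup_fixedField]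
  have hle : ∀ j, IntermediateField.fixedField (S j) ≤ IntermediateField.fixedField (S' j) :=
    fun j => IntermediateField.fixedField_antitone (hS j).1
  let FS : J → Ext k := fun j => ⟨IntermediateField.fixedField (S j)⟩
  let FS' : J → Ext k := fun j => ⟨IntermediateField.fixedField (S' j)⟩
  let FT : Ext k := ⟨IntermediateField.fixedField T⟩
  have hquad : ∀ j, ∃ D : 𝓞 (FS j).F, D ≠ 0 ∧ ∀ (E : WeierstrassCurve k), E.IsElliptic →
      ∀ VS : HeightOneSpectrum (𝓞 (FS j).F) → WeierstrassCurve (𝓞 (FS j).F),
        (∀ v, IsMinAt (E.map (algebraMap k (FS j).F)) v (VS v)) →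
      ∀ VS' : HeightOneSpectrum (𝓞 (FS' j).F) → WeierstrassCurve (𝓞 (FS' j).F),
        (∀ v, IsMinAt (E.map (algebraMap k (FS' j).F)) v (VS' v)) →
      ∀ VD : HeightOneSpectrum (𝓞 (FS j).F) → WeierstrassCurve (𝓞 (FS j).F),
        (∀ v, IsMinAt (twist (E.map (algebraMap k (FS j).F)) (D : (FS j).F)) v (VD v)) →
      ∃ N0 : ℕ, N0 ≠ 0 ∧ ∀ N : ℕ, N ≠ 0 → N0 ∣ N → ∀ s : ℂ, 3 / 2 < s.re →
        LN N VS' s = LN N VS s * LN N VD s := by
    intro j
    let _ : Algebra (IntermediateField.fixedField (S j)) (IntermediateField.fixedField (S' j)) :=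
      (IntermediateField.inclusion (hle j)).toRingHom.toAlgebra
    have _ : IsScalarTower k (IntermediateField.fixedField (S j))
        (IntermediateField.fixedField (S' j)) :=
      IsScalarTower.of_algebraMap_eq fun x => rfl
    have h1 := Module.finrank_mul_finrank k (IntermediateField.fixedField (S j))
      (IntermediateField.fixedField (S' j))
    rw [hidx, hidx, ← Subgroup.relIndex_mul_index (hS j).1, (hS j).2.1, mul_comm 2] at h1
    have h0 : 0 < (S j).index := Nat.pos_of_ne_zero Subgroup.index_ne_zero_of_finite
    have h2 := Nat.eq_of_mul_eq_mul_left h0 h1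
    obtain ⟨D, B, α, hD0, hα, hmin⟩ := exists_quad (k := IntermediateField.fixedField (S j))
      (Y := IntermediateField.fixedField (S' j)) h2
    refine ⟨D, hD0, fun E hE VS hVS VS' hVS' VD hVD => ?_⟩
    have hEZ : (E.map (algebraMap k (IntermediateField.fixedField (S j)))).IsElliptic :=
      inferInstance
    have hDk : (D : IntermediateField.fixedField (S j)) ≠ 0 := by
      rwa [Ne, FaithfulSMul.algebraMap_eq_zero_iff]
    have hmap : (E.map (algebraMap k (IntermediateField.fixedField (S j)))).map
        (algebraMap (IntermediateField.fixedField (S j)) (IntermediateField.fixedField (S' j))) =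
        E.map (algebraMap k (IntermediateField.fixedField (S' j))) := by
      rw [WeierstrassCurve.map_map]
      rfl
    exact quad_relN (F := IntermediateField.fixedField (S j)) hD0
      (Z := IntermediateField.fixedField (S' j)) B hα hmin
      (E.map (algebraMap k (IntermediateField.fixedField (S j)))) hEZ
      (V0 := VS) (VD := VD) (VZ := VS') (fun v => by
        have e1 : ((1 : 𝓞 (IntermediateField.fixedField (S j))) :
            IntermediateField.fixedField (S j)) = 1 := map_one _
        rw [e1]
        exact isMinAt_one _ v _ (hVS v)) hVD (twist_elliptic hEZ hDk)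
      (twist_elliptic hEZ (by simp)) (fun w => by
        rw [hmap]
        exact hVS' w)
  choose D hD0 hDL using hquad
  refine ⟨Option J, inferInstance, fun o => match o with
    | none => FT
    | some j => FS j, fun o => match o with
    | none => 1
    | some j => D j, ?_, ?_, ?_⟩
  · rintro (_ | j)
    · refine ⟨one_ne_zero, ?_⟩
      change Module.finrank k (IntermediateField.fixedField T) < n
      rw [hidx]
      exact hT
    · refine ⟨hD0 j, ?_⟩
      change Module.finrank k (IntermediateField.fixedField (S j)) < n
      rw [hidx]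
      exact (hS j).2.2
  · have hone : ∀ U : Subgroup Gal(M/k), fx U 1 = U.index := by
      intro U
      rw [fx, Subgroup.index]
      congr 1
      exact Nat.card_congr (Equiv.subtypeUnivEquiv fun c => one_smul _ c)
    have h1 := hfx 1
    simp only [hone] at h1
    have h2 : f.fieldRange.fixingSubgroup.index = Module.finrank k K.F := by
      rw [← IntermediateField.finrank_eq_fixingSubgroup_index]
      exact (AlgEquiv.ofInjectiveField f).toLinearEquiv.finrank_eq.symm
    rw [Fintype.sum_option]
    change Module.finrank k (IntermediateField.fixedField T) +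
      ∑ j, Module.finrank k (IntermediateField.fixedField (S j)) = _
    have h3 : ∀ j, ((S' j).index : ℤ) - (S j).index = (S j).index := by
      intro j
      rw [← Subgroup.relIndex_mul_index (hS j).1, (hS j).2.1]
      push_cast
      ring
    simp only [h3] at h1
    simp only [hidx]
    rw [← h2]
    exact_mod_cast h1.symm
  · intro E hE V hV W hW
    obtain ⟨VT, hVT⟩ := exists_minimal (E.map (algebraMap k FT.F)) inferInstance
    choose VS hVS using fun j => exists_minimal (E.map (algebraMap k (FS j).F)) inferInstance
    choose VS' hVS' using fun j => exists_minimal (E.map (algebraMap k (FS' j).F)) inferInstance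
    choose Nj hNj0 hNj using fun j => hDL j E hE (VS j) (hVS j) (VS' j) (hVS' j) (W (some j))
      (hW (some j))
    have hfix : ∀ U : Subgroup Gal(M/k),
        (IntermediateField.val (IntermediateField.fixedField U)).fieldRange.fixingSubgroup = U := by
      intro U
      rw [IntermediateField.fieldRange_val, IntermediateField.fixingSubgroup_fixedField]
    obtain ⟨N1, hN1, hrel⟩ := L_relN (K := k) (L := M) (ι := Option (Option (J ⊕ J)))
      (fun o => match o with
        | none => K
        | some none => FT
        | some (some (Sum.inl j)) => FS j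
        | some (some (Sum.inr j)) => FS' j)
      (fun o => match o with
        | none => f
        | some none => IntermediateField.val _
        | some (some (Sum.inl j)) => IntermediateField.val _
        | some (some (Sum.inr j)) => IntermediateField.val _)
      (fun o => match o with
        | none => 1
        | some none => 0
        | some (some (Sum.inl j)) => 1
        | some (some (Sum.inr j)) => 0)
      (fun o => match o with
        | none => 0
        | some none => 1
        | some (some (Sum.inl j)) => 0
        | some (some (Sum.inr j)) => 1)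
      (fun σ => by
        have h1 := hfx σ
        simp only [Fintype.sum_option, Fintype.sum_sum_type, hfix, FT, FS, FS']
        simp only [Nat.cast_one, Nat.cast_zero, one_mul, zero_mul, Finset.sum_const_zero, zero_add,
          add_zero]
        rw [Finset.sum_sub_distrib] at h1
        linear_combination h1) E hE
      (fun o => match o with
        | none => V
        | some none => VT
        | some (some (Sum.inl j)) => VS j
        | some (some (Sum.inr j)) => VS' j)
      (fun o => match o with
        | none => hV
        | some none => hVT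
        | some (some (Sum.inl j)) => hVS j
        | some (some (Sum.inr j)) => hVS' j)
    refine ⟨N1 * ∏ j, Nj j, mul_ne_zero hN1 (Finset.prod_ne_zero_iff.2 fun j _ => hNj0 j),
      fun N hN hNN s hs => ?_⟩
    have h1 := hrel N hN ((dvd_mul_right _ _).trans hNN) s hs
    simp only [Fintype.prod_option, Fintype.prod_sum_type, pow_one, pow_zero, one_mul, mul_one,
      Finset.prod_const_one] at h1
    have h2 : ∀ j, LN N (VS' j) s = LN N (VS j) s * LN N (W (some j)) s := fun j =>
      hNj j N hN (((Finset.dvd_prod_of_mem Nj (Finset.mem_univ j)).trans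
        (dvd_mul_left _ _)).trans hNN) s hs
    have h3 : LN N VT s = LN N (W none) s :=
      LN_minimal (inferInstance : (E.map (algebraMap k FT.F)).IsElliptic) hVT
        (fun v => isMinAt_one' _ v _ (hW none v)) N s
    have hne : ∏ j, LN N (VS j) s ≠ 0 := Finset.prod_ne_zero_iff.2 fun j _ =>
      LN_ne_zero (inferInstance : (E.map (algebraMap k (FS j).F)).IsElliptic) (hVS j) hN hs
    rw [Fintype.prod_option]
    refine mul_right_cancel₀ hne ?_
    rw [h1, Finset.prod_congr rfl fun j _ => h2 j, Finset.prod_mul_distrib, h3]
    ring

end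

end Pool.Agent.H453.EN
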