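import Pool.Agent.H453.EN.Cont
import Pool.Graph.R_pool_sql_team_seeded_3997aac3.Q286.EQ.MW

/-! Fields over which the incomplete `L`-series of all elliptic curves are products of those of quadratic
twists over fields of smaller degree; the ranks. -/

set_option autoImplicit false

namespace Pool.Agent.H453.EN

open NumberField IsDedekindDomain Complex Polynomial
open Pool.Agent.H341R2.EC
open Pool.Agent.R433.MD
open Pool.Agent.H453.MC (twist_elliptic isMinAt_one' exists_quad ext_restrict)
open Pool.Agent.H453.BS (rank_twist_one rank_quad rank_rel')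
open scoped Classical

/-- the rank is finite -/
theorem exists_rank {K : Type} [Field K] [NumberField K] (E : WeierstrassCurve K)
    (hE : E.IsElliptic) : ∃ r : ℕ, Module.rank ℤ E.toAffine.Point = r := by
  have h1 := Pool.Agent.Q286.EQ.mordell_weil K E E.isUnit_Δ.ne_zero
  have h2 : Module.Finite ℤ E.toAffine.Point := Module.Finite.iff_addGroup_fg.2 h1
  have h3 := Module.rank_lt_aleph0 ℤ E.toAffine.Point
  obtain ⟨r, hr⟩ := Cardinal.lt_aleph0.1 h3
  exact ⟨r, hr⟩

section
variable {k : Type} [Field k] [NumberField k]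

/-- the rank of `E(K)` -/
noncomputable def rkE (E : WeierstrassCurve k) (K : Ext k) : Cardinal :=
  Module.rank ℤ (E.map (algebraMap k K.F)).toAffine.Point

/-- the rank of `E_D(K)` -/
noncomputable def rkT (E : WeierstrassCurve k) (K : Ext k) (D : 𝓞 K.F) : Cardinal :=
  Module.rank ℤ (twist (E.map (algebraMap k K.F)) (D : K.F)).toAffine.Point

theorem exists_rkE (E : WeierstrassCurve k) (hE : E.IsElliptic) (K : Ext k) :
    ∃ r : ℕ, rkE E K = r := exists_rank (E.map (algebraMap k K.F)) inferInstance

theorem rkT_one (E : WeierstrassCurve k) (hE : E.IsElliptic) (K : Ext k) :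
    rkT E K 1 = rkE E K := by
  have e1 : (((1 : 𝓞 K.F) : K.F)) = 1 := map_one (algebraMap (𝓞 K.F) K.F)
  have hET : (E.map (algebraMap k K.F)).IsElliptic := inferInstance
  unfold rkT rkE
  rw [e1]
  exact rank_twist_one _ (E.map (algebraMap k K.F)).isUnit_Δ.ne_zero

/-- quadratic extensions -/
theorem quadB (Z₀ : Ext k) (Y : Ext Z₀.F) (hY : Module.finrank Z₀.F Y.F = 2) :
    ∃ D : 𝓞 Z₀.F, D ≠ 0 ∧ ∀ (E : WeierstrassCurve k), E.IsElliptic →
      (∀ VS : HeightOneSpectrum (𝓞 Z₀.F) → WeierstrassCurve (𝓞 Z₀.F),
        (∀ v, IsMinAt (E.map (algebraMap k Z₀.F)) v (VS v)) →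
      ∀ VS' : HeightOneSpectrum (𝓞 (Z₀.restrict Y).F) → WeierstrassCurve (𝓞 (Z₀.restrict Y).F),
        (∀ v, IsMinAt (E.map (algebraMap k (Z₀.restrict Y).F)) v (VS' v)) →
      ∀ VD : HeightOneSpectrum (𝓞 Z₀.F) → WeierstrassCurve (𝓞 Z₀.F),
        (∀ v, IsMinAt (twist (E.map (algebraMap k Z₀.F)) (D : Z₀.F)) v (VD v)) →
      ∃ N0 : ℕ, N0 ≠ 0 ∧ ∀ N : ℕ, N ≠ 0 → N0 ∣ N → ∀ s : ℂ, 3 / 2 < s.re →
        LN N VS' s = LN N VS s * LN N VD s) ∧
      rkE E (Z₀.restrict Y) = rkE E Z₀ + rkT E Z₀ D := by
  obtain ⟨D, B, α, hD0, hα, hmin⟩ := exists_quad hY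
  have hDk : (D : Z₀.F) ≠ 0 := by
    rwa [Ne, FaithfulSMul.algebraMap_eq_zero_iff]
  refine ⟨D, hD0, fun E hE => ⟨fun VS hVS VS' hVS' VD hVD => ?_, ?_⟩⟩
  · have hEZ : (E.map (algebraMap k Z₀.F)).IsElliptic := inferInstance
    exact quad_relN (F := Z₀.F) hD0 (Z := Y.F) B hα hmin
      (E.map (algebraMap k Z₀.F)) hEZ
      (V0 := VS) (VD := VD) (VZ := VS') (fun v => by
        have e1 : ((1 : 𝓞 Z₀.F) : Z₀.F) = 1 := map_one _
        rw [e1]
        exact isMinAt_one _ v _ (hVS v)) hVD (twist_elliptic hEZ hDk)
      (twist_elliptic hEZ (by simp)) (fun w => by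
        have h1 := hVS' w
        rw [map_restrict] at h1
        exact h1)
  · have hq : Algebra.IsQuadraticExtension Z₀.F Y.F := ⟨hY⟩
    have hEZ : (E.map (algebraMap k Z₀.F)).IsElliptic := inferInstance
    have hdim : B.dim = 2 := by rw [← B.finrank, hY]
    have hα2 : (α : Y.F) ^ 2 = algebraMap Z₀.F Y.F (D : Z₀.F) := by
      have h3 := minpoly.aeval (𝓞 Z₀.F) α
      rw [hmin, map_sub, map_pow, aeval_X, aeval_C, sub_eq_zero] at h3
      have h4 := congrArg (algebraMap (𝓞 Y.F) Y.F) h3
      rw [map_pow] at h4
      exact h4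
    have hgen : ∀ z : Y.F, ∃ x y : Z₀.F,
        z = algebraMap Z₀.F Y.F x + algebraMap Z₀.F Y.F y * (α : Y.F) := by
      intro z
      obtain ⟨f, hf, hz⟩ := B.exists_eq_aeval z
      rw [hdim] at hf
      refine ⟨f.coeff 0, f.coeff 1, ?_⟩
      rw [hz, aeval_eq_sum_range' hf, Finset.sum_range_succ, Finset.sum_range_one, pow_zero,
        pow_one, Algebra.smul_def, Algebra.smul_def, mul_one, hα]
    have hαF : ∀ x : Z₀.F, algebraMap Z₀.F Y.F x ≠ (α : Y.F) := by
      intro x hx
      have h3 : Module.finrank Z₀.F Y.F ≤ 1 := by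
        refine finrank_le_one (1 : Y.F) fun w => ?_
        obtain ⟨a, b, hab⟩ := hgen w
        refine ⟨a + b * x, ?_⟩
        rw [Algebra.smul_def, mul_one, map_add, map_mul, hx, ← hab]
      omega
    have h3 := rank_quad (F := Z₀.F) (Z := Y.F) (E.map (algebraMap k Z₀.F))
      (E.map (algebraMap k Z₀.F)).isUnit_Δ.ne_zero hDk hα2 hαF hgen
    rw [rank_twist_one _ (E.map (algebraMap k Z₀.F)).isUnit_Δ.ne_zero] at h3
    unfold rkE rkT
    rw [map_restrict]
    exact h3

/-- relations between ranks -/
theorem rel_rkE {M : Type} [Field M] [NumberField M] [Algebra k M] [IsGalois k M]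
    {ι : Type} [Fintype ι] (K : Ext k) (f : K.F →ₐ[k] M) (Z : ι → Ext k)
    (g : ∀ i, (Z i).F →ₐ[k] M) (c : ι → ℤ)
    (h : ∀ σ : Gal(M/k), fx f.fieldRange.fixingSubgroup σ =
      ∑ i, c i * fx (g i).fieldRange.fixingSubgroup σ) (E : WeierstrassCurve k) (r : ι → ℕ)
    (hr : ∀ i, rkE E (Z i) = r i) :
    ∃ r0 : ℕ, rkE E K = r0 ∧ (r0 : ℤ) = ∑ i, c i * (r i : ℤ) :=
  rank_rel' (L := M) E f (fun i => (Z i).F) g c h r hr

/-- The incomplete `L`-series of `E / K` is a product of incomplete `L`-series of quadratic twists of `E`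
over extensions of `k` of degree less than `n`, for all `E / k`, and the rank is the sum of the ranks. -/
def FacB (n : ℕ) (K : Ext k) : Prop :=
  ∃ (ι : Type) (_ : Fintype ι) (Z : ι → Ext k) (D : ∀ i, 𝓞 (Z i).F),
    (∀ i, D i ≠ 0 ∧ Module.finrank k (Z i).F < n) ∧
    ∑ i, Module.finrank k (Z i).F = Module.finrank k K.F ∧
    ∀ E : WeierstrassCurve k, E.IsElliptic →
      (∀ V : HeightOneSpectrum (𝓞 K.F) → WeierstrassCurve (𝓞 K.F),
        (∀ v, IsMinAt (E.map (algebraMap k K.F)) v (V v)) →
      ∀ W : ∀ i, HeightOneSpectrum (𝓞 (Z i).F) → WeierstrassCurve (𝓞 (Z i).F),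
        (∀ i v, IsMinAt (twist (E.map (algebraMap k (Z i).F)) (D i : (Z i).F)) v (W i v)) →
        ∃ N0 : ℕ, N0 ≠ 0 ∧ ∀ N : ℕ, N ≠ 0 → N0 ∣ N → ∀ s : ℂ, 3 / 2 < s.re →
          LN N V s = ∏ i, LN N (W i) s) ∧
      ∀ r : ι → ℕ, (∀ i, rkT E (Z i) (D i) = r i) → rkE E K = ((∑ i, r i : ℕ) : Cardinal)

theorem facB_restrict {m n : ℕ} (Z₀ : Ext k) (K : Ext Z₀.F) (h : FacB m K)
    (hmn : Module.finrank k Z₀.F * m ≤ n) : FacB n (Z₀.restrict K) := by
  obtain ⟨ι, hι, Z, D, hZ, hdeg, hL⟩ := h
  refine ⟨ι, hι, fun i => Z₀.restrict (Z i), fun i => D i, fun i => ⟨(hZ i).1, ?_⟩, ?_,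
    fun E hE => ⟨fun V hV W hW => ?_, fun r hr => ?_⟩⟩
  · rw [finrank_restrict]
    refine lt_of_lt_of_le ?_ hmn
    have : 0 < Module.finrank k Z₀.F := Module.finrank_pos
    exact Nat.mul_lt_mul_of_pos_left (hZ i).2 this
  · simp only [finrank_restrict]
    rw [← Finset.mul_sum, hdeg]
  · have hEZ : (E.map (algebraMap k Z₀.F)).IsElliptic := inferInstance
    refine (hL (E.map (algebraMap k Z₀.F)) hEZ).1 V (fun v => ?_) W (fun i v => ?_)
    · have h1 := hV v
      rw [map_restrict] at h1
      exact h1
    · have h1 := hW i v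
      rw [map_restrict] at h1
      exact h1
  · have hEZ : (E.map (algebraMap k Z₀.F)).IsElliptic := inferInstance
    have h1 := (hL (E.map (algebraMap k Z₀.F)) hEZ).2 r (fun i => by
      have h5 := hr i
      unfold rkT at h5 ⊢
      rw [map_restrict] at h5
      exact h5)
    unfold rkE at h1 ⊢
    rw [map_restrict]
    exact h1

variable {M : Type} [Field M] [NumberField M] [Algebra k M] [IsGalois k M]

/-- **From permutation characters to incomplete `L`-series.** -/
theorem facB_of_pos {n : ℕ} (K : Ext k) (f : K.F →ₐ[k] M)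
    (h : Pos n f.fieldRange.fixingSubgroup) : FacB n K := by
  classical
  obtain ⟨J, hJ, T, S, S', hT, hS, hfx⟩ := h
  have hidx : ∀ U : Subgroup Gal(M/k), Module.finrank k (IntermediateField.fixedField U) =
      U.index := by
    intro U
    rw [IntermediateField.finrank_eq_fixingSubgroup_index,
      IntermediateField.fixingSubgroup_fixedField]
  have hle : ∀ j, IntermediateField.fixedField (S j) ≤ IntermediateField.fixedField (S' j) :=
    fun j => IntermediateField.fixedField_antitone (hS j).1
  let FS : J → Ext k := fun j => ⟨IntermediateField.fixedField (S j)⟩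
  let FS' : J → Ext k := fun j => ⟨IntermediateField.fixedField (S' j)⟩
  let FT : Ext k := ⟨IntermediateField.fixedField T⟩
  have hquad : ∀ j, ∃ D : 𝓞 (FS j).F, D ≠ 0 ∧ ∀ (E : WeierstrassCurve k), E.IsElliptic →
      (∀ VS : HeightOneSpectrum (𝓞 (FS j).F) → WeierstrassCurve (𝓞 (FS j).F),
        (∀ v, IsMinAt (E.map (algebraMap k (FS j).F)) v (VS v)) →
      ∀ VS' : HeightOneSpectrum (𝓞 (FS' j).F) → WeierstrassCurve (𝓞 (FS' j).F),
        (∀ v, IsMinAt (E.map (algebraMap k (FS' j).F)) v (VS' v)) →
      ∀ VD : HeightOneSpectrum (𝓞 (FS j).F) → WeierstrassCurve (𝓞 (FS j).F),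
        (∀ v, IsMinAt (twist (E.map (algebraMap k (FS j).F)) (D : (FS j).F)) v (VD v)) →
      ∃ N0 : ℕ, N0 ≠ 0 ∧ ∀ N : ℕ, N ≠ 0 → N0 ∣ N → ∀ s : ℂ, 3 / 2 < s.re →
        LN N VS' s = LN N VS s * LN N VD s) ∧
      rkE E (FS' j) = rkE E (FS j) + rkT E (FS j) D := by
    intro j
    let _ : Algebra (IntermediateField.fixedField (S j)) (IntermediateField.fixedField (S' j)) :=
      (IntermediateField.inclusion (hle j)).toRingHom.toAlgebra
    have _ : IsScalarTower k (IntermediateField.fixedField (S j))
        (IntermediateField.fixedField (S' j)) :=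
      IsScalarTower.of_algebraMap_eq fun x => rfl
    have h1 := Module.finrank_mul_finrank k (IntermediateField.fixedField (S j))
      (IntermediateField.fixedField (S' j))
    rw [hidx, hidx, ← Subgroup.relIndex_mul_index (hS j).1, (hS j).2.1, mul_comm 2] at h1
    have h0 : 0 < (S j).index := Nat.pos_of_ne_zero Subgroup.index_ne_zero_of_finite
    have h2 := Nat.eq_of_mul_eq_mul_left h0 h1
    have h3 := quadB (k := k) ⟨IntermediateField.fixedField (S j)⟩
      ⟨IntermediateField.fixedField (S' j)⟩ h2
    rwa [ext_restrict] at h3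
  choose D hD0 hDL using hquad
  refine ⟨Option J, inferInstance, fun o => match o with
    | none => FT
    | some j => FS j, fun o => match o with
    | none => 1
    | some j => D j, ?_, ?_, ?_⟩
  · rintro (_ | j)
    · refine ⟨one_ne_zero, ?_⟩
      change Module.finrank k (IntermediateField.fixedField T) < n
      rw [hidx]
      exact hT
    · refine ⟨hD0 j, ?_⟩
      change Module.finrank k (IntermediateField.fixedField (S j)) < n
      rw [hidx]
      exact (hS j).2.2
  · have hone : ∀ U : Subgroup Gal(M/k), fx U 1 = U.index := by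
      intro U
      rw [fx, Subgroup.index]
      congr 1
      exact Nat.card_congr (Equiv.subtypeUnivEquiv fun c => one_smul _ c)
    have h1 := hfx 1
    simp only [hone] at h1
    have h2 : f.fieldRange.fixingSubgroup.index = Module.finrank k K.F := by
      rw [← IntermediateField.finrank_eq_fixingSubgroup_index]
      exact (AlgEquiv.ofInjectiveField f).toLinearEquiv.finrank_eq.symm
    rw [Fintype.sum_option]
    change Module.finrank k (IntermediateField.fixedField T) +
      ∑ j, Module.finrank k (IntermediateField.fixedField (S j)) = _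
    have h3 : ∀ j, ((S' j).index : ℤ) - (S j).index = (S j).index := by
      intro j
      rw [← Subgroup.relIndex_mul_index (hS j).1, (hS j).2.1]
      push_cast
      ring
    simp only [h3] at h1
    simp only [hidx]
    rw [← h2]
    exact_mod_cast h1.symm
  · intro E hE
    have hfix : ∀ U : Subgroup Gal(M/k),
        (IntermediateField.val (IntermediateField.fixedField U)).fieldRange.fixingSubgroup = U := by
      intro U
      rw [IntermediateField.fieldRange_val, IntermediateField.fixingSubgroup_fixedField]
    have hTw : ∀ j, (twist (E.map (algebraMap k (FS j).F)) (D j : (FS j).F)).IsElliptic := fun j =>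
      twist_elliptic inferInstance (by
        rw [Ne, FaithfulSMul.algebraMap_eq_zero_iff]
        exact hD0 j)
    refine ⟨fun V hV W hW => ?_, fun r hr => ?_⟩
    swap
    · have hrk := fun j => (hDL j E hE).2
      choose rS hrS using fun j => exists_rkE E hE (FS j)
      have hrn : rkT E FT 1 = r none := hr none
      have hrs : ∀ j, rkT E (FS j) (D j) = r (some j) := fun j => hr (some j)
      rw [rkT_one E hE] at hrn
      obtain ⟨r0, h1, h2⟩ := rel_rkE K f (fun o : Option (J ⊕ J) => (match o with
          | none => FT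
          | some (Sum.inl j) => FS j
          | some (Sum.inr j) => FS' j : Ext k))
        (fun o => match o with
          | none => IntermediateField.val _
          | some (Sum.inl j) => IntermediateField.val _
          | some (Sum.inr j) => IntermediateField.val _)
        (fun o => match o with
          | none => 1
          | some (Sum.inl j) => -1
          | some (Sum.inr j) => 1)
        (fun σ => by
          have h1 := hfx σ
          simp only [Fintype.sum_option, Fintype.sum_sum_type, hfix, FT, FS, FS']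
          rw [Finset.sum_sub_distrib] at h1
          simp only [one_mul, neg_mul, Finset.sum_neg_distrib]
          linear_combination h1) E
        (fun o => match o with
          | none => r none
          | some (Sum.inl j) => rS j
          | some (Sum.inr j) => rS j + r (some j))
        (fun o => match o with
          | none => hrn
          | some (Sum.inl j) => hrS j
          | some (Sum.inr j) => by
            change rkE E (FS' j) = _
            rw [hrk j, hrS j, hrs j]
            push_cast
            rfl)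
      rw [h1]
      congr 1
      simp only [Fintype.sum_option, Fintype.sum_sum_type, one_mul, neg_mul,
        Finset.sum_neg_distrib] at h2
      rw [Fintype.sum_option]
      push_cast at h2
      rw [Finset.sum_add_distrib] at h2
      have h3 : (r0 : ℤ) = ((r none + ∑ j, r (some j) : ℕ) : ℤ) := by
        push_cast
        linear_combination h2
      exact_mod_cast h3
    obtain ⟨VT, hVT⟩ := exists_minimal (E.map (algebraMap k FT.F)) inferInstance
    choose VS hVS using fun j => exists_minimal (E.map (algebraMap k (FS j).F)) inferInstance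
    choose VS' hVS' using fun j => exists_minimal (E.map (algebraMap k (FS' j).F)) inferInstance
    choose Nj hNj0 hNj using fun j => (hDL j E hE).1 (VS j) (hVS j) (VS' j) (hVS' j) (W (some j))
      (hW (some j))
    obtain ⟨N1, hN1, hrel⟩ := L_relN (K := k) (L := M) (ι := Option (Option (J ⊕ J)))
      (fun o => match o with
        | none => K
        | some none => FT
        | some (some (Sum.inl j)) => FS j
        | some (some (Sum.inr j)) => FS' j)
      (fun o => match o with
        | none => f
        | some none => IntermediateField.val _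
        | some (some (Sum.inl j)) => IntermediateField.val _
        | some (some (Sum.inr j)) => IntermediateField.val _)
      (fun o => match o with
        | none => 1
        | some none => 0
        | some (some (Sum.inl j)) => 1
        | some (some (Sum.inr j)) => 0)
      (fun o => match o with
        | none => 0
        | some none => 1
        | some (some (Sum.inl j)) => 0
        | some (some (Sum.inr j)) => 1)
      (fun σ => by
        have h1 := hfx σ
        simp only [Fintype.sum_option, Fintype.sum_sum_type, hfix, FT, FS, FS']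
        simp only [Nat.cast_one, Nat.cast_zero, one_mul, zero_mul, Finset.sum_const_zero, zero_add,
          add_zero]
        rw [Finset.sum_sub_distrib] at h1
        linear_combination h1) E hE
      (fun o => match o with
        | none => V
        | some none => VT
        | some (some (Sum.inl j)) => VS j
        | some (some (Sum.inr j)) => VS' j)
      (fun o => match o with
        | none => hV
        | some none => hVT
        | some (some (Sum.inl j)) => hVS j
        | some (some (Sum.inr j)) => hVS' j)
    refine ⟨N1 * ∏ j, Nj j, mul_ne_zero hN1 (Finset.prod_ne_zero_iff.2 fun j _ => hNj0 j),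
      fun N hN hNN s hs => ?_⟩
    have h1 := hrel N hN ((dvd_mul_right _ _).trans hNN) s hs
    simp only [Fintype.prod_option, Fintype.prod_sum_type, pow_one, pow_zero, one_mul, mul_one,
      Finset.prod_const_one] at h1
    have h2 : ∀ j, LN N (VS' j) s = LN N (VS j) s * LN N (W (some j)) s := fun j =>
      hNj j N hN (((Finset.dvd_prod_of_mem Nj (Finset.mem_univ j)).trans
        (dvd_mul_left _ _)).trans hNN) s hs
    have h3 : LN N VT s = LN N (W none) s :=
      LN_minimal (inferInstance : (E.map (algebraMap k FT.F)).IsElliptic) hVT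
        (fun v => isMinAt_one' _ v _ (hW none v)) N s
    have hne : ∏ j, LN N (VS j) s ≠ 0 := Finset.prod_ne_zero_iff.2 fun j _ =>
      LN_ne_zero (inferInstance : (E.map (algebraMap k (FS j).F)).IsElliptic) (hVS j) hN hs
    rw [Fintype.prod_option]
    refine mul_right_cancel₀ hne ?_
    rw [h1, Finset.prod_congr rfl fun j _ => h2 j, Finset.prod_mul_distrib, h3]
    ring

end

end Pool.Agent.H453.EN
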