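import Pool.Agent.H453.BS.Nice

/-! Incomplete `L`-series. -/

set_option autoImplicit false

namespace Pool.Agent.H453.EN

open NumberField IsDedekindDomain Complex Polynomial
open Pool.Agent.H921R2.TatePole (nm two_le_nm nm_summable)
open Pool.Agent.H341R2.EC
open Pool.Agent.H341R2 (finite_v card_v chi)
open Pool.Agent.R433.MD
open Pool.Agent.R333.BR (nh_congr lf_one)
open Pool.Agent.N19.BR (lf_ne_zero_one)

section
variable {K : Type} [Field K] [NumberField K]

/-- the prime `v` divides `N` -/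
def Dv (N : ℕ) (v : HeightOneSpectrum (𝓞 K)) : Prop := ((N : ℕ) : 𝓞 K) ∈ v.asIdeal

open scoped Classical in
/-- the Euler factors at the primes not dividing `N` -/
noncomputable def ef (N : ℕ) (V : HeightOneSpectrum (𝓞 K) → WeierstrassCurve (𝓞 K)) (s : ℂ)
    (v : HeightOneSpectrum (𝓞 K)) : ℂ :=
  if Dv N v then 1 else (lf V s v)⁻¹

/-- the incomplete `L`-series -/
noncomputable def LN (N : ℕ) (V : HeightOneSpectrum (𝓞 K) → WeierstrassCurve (𝓞 K)) (s : ℂ) : ℂ :=
  ∏' v, ef N V s v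

theorem finite_dv {N : ℕ} (hN : N ≠ 0) : {v : HeightOneSpectrum (𝓞 K) | Dv N v}.Finite := by
  have h : ((N : ℕ) : 𝓞 K) ≠ 0 := by exact_mod_cast hN
  exact finite_mem h

open scoped Classical in
theorem hasProd_ef {E : WeierstrassCurve K} (hE : E.IsElliptic)
    {V : HeightOneSpectrum (𝓞 K) → WeierstrassCurve (𝓞 K)} (hV : ∀ v, IsMinAt E v (V v))
    {N : ℕ} (hN : N ≠ 0) {s : ℂ} (hs : 3 / 2 < s.re) :
    HasProd (ef N V s) (LL V s * ∏ v ∈ (finite_dv (K := K) hN).toFinset, lf V s v) := by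
  have h1 := (hasProd_lf E hE V hV hs).1
  have h2 : HasProd (fun v => if Dv N v then lf V s v else 1)
      (∏ v ∈ (finite_dv (K := K) hN).toFinset, lf V s v) := by
    have h3 : HasProd (fun v => if Dv N v then lf V s v else 1)
        (∏ v ∈ (finite_dv (K := K) hN).toFinset, if Dv N v then lf V s v else 1) :=
      hasProd_prod_of_ne_finset_one fun v hv => by
        rw [Set.Finite.mem_toFinset] at hv
        exact if_neg hv
    have h4 : (∏ v ∈ (finite_dv (K := K) hN).toFinset, if Dv N v then lf V s v else 1) =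
        ∏ v ∈ (finite_dv (K := K) hN).toFinset, lf V s v :=
      Finset.prod_congr rfl fun v hv => if_pos ((Set.Finite.mem_toFinset _).1 hv)
    rwa [h4] at h3
  have h3 := h1.mul h2
  refine h3.congr_fun ?_
  intro v
  unfold ef
  split_ifs with h
  · exact (inv_mul_cancel₀ (lf_ne_zero_one V (by linarith) v)).symm
  · exact (mul_one _).symm

open scoped Classical in
/-- the incomplete `L`-series is the product with finitely many local factors -/
theorem LN_eq {E : WeierstrassCurve K} (hE : E.IsElliptic)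
    {V : HeightOneSpectrum (𝓞 K) → WeierstrassCurve (𝓞 K)} (hV : ∀ v, IsMinAt E v (V v))
    {N : ℕ} (hN : N ≠ 0) {s : ℂ} (hs : 3 / 2 < s.re) :
    LN N V s = LL V s * ∏ v ∈ (finite_dv (K := K) hN).toFinset, lf V s v :=
  (hasProd_ef hE hV hN hs).tprod_eq

theorem hasProd_LN {E : WeierstrassCurve K} (hE : E.IsElliptic)
    {V : HeightOneSpectrum (𝓞 K) → WeierstrassCurve (𝓞 K)} (hV : ∀ v, IsMinAt E v (V v))
    {N : ℕ} (hN : N ≠ 0) {s : ℂ} (hs : 3 / 2 < s.re) : HasProd (ef N V s) (LN N V s) := by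
  rw [LN_eq hE hV hN hs]
  exact hasProd_ef hE hV hN hs

theorem LN_ne_zero {E : WeierstrassCurve K} (hE : E.IsElliptic)
    {V : HeightOneSpectrum (𝓞 K) → WeierstrassCurve (𝓞 K)} (hV : ∀ v, IsMinAt E v (V v))
    {N : ℕ} (hN : N ≠ 0) {s : ℂ} (hs : 3 / 2 < s.re) : LN N V s ≠ 0 := by
  classical
  rw [LN_eq hE hV hN hs]
  exact mul_ne_zero (hasProd_lf E hE V hV hs).2 (Finset.prod_ne_zero_iff.2 fun v _ =>
    lf_ne_zero_one V (by linarith) v)

/-- a natural number in all primes that contain `x` -/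
theorem exists_nat {x : 𝓞 K} (hx : x ≠ 0) : ∃ N : ℕ, N ≠ 0 ∧ ∀ v : HeightOneSpectrum (𝓞 K),
    x ∈ v.asIdeal → Dv N v := by
  refine ⟨Ideal.absNorm (Ideal.span {x}), ?_, fun v hv => ?_⟩
  · rw [Ne, Ideal.absNorm_eq_zero_iff, Ideal.span_singleton_eq_bot]
    exact hx
  · have h1 := Ideal.absNorm_mem (Ideal.span {x})
    have h2 : Ideal.span {x} ≤ v.asIdeal := by
      rw [Ideal.span_singleton_le_iff_mem]
      exact hv
    exact h2 h1

omit [NumberField K] in
theorem dv_of_dvd {N N' : ℕ} (h : N ∣ N') {v : HeightOneSpectrum (𝓞 K)} (hv : Dv N v) :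
    Dv N' v := by
  obtain ⟨m, rfl⟩ := h
  unfold Dv at hv ⊢
  rw [Nat.cast_mul]
  exact v.asIdeal.mul_mem_right _ hv

/-- primes above a prime -/
theorem dv_fib {F : Type} [Field F] [NumberField F] [Algebra K F] {N : ℕ}
    {v : HeightOneSpectrum (𝓞 K)} (w : Fib F v) : Dv N w.1 ↔ Dv N v := by
  unfold Dv
  obtain ⟨w, hw⟩ := w
  have h1 : und (K := K) w = v := hw
  subst h1
  change ((N : ℕ) : 𝓞 F) ∈ w.asIdeal ↔ algebraMap (𝓞 K) (𝓞 F) ((N : ℕ) : 𝓞 K) ∈ w.asIdeal
  rw [map_natCast]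

end

end Pool.Agent.H453.EN
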