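import Pool.Agent.H453.EN.FacB

/-! Orders of vanishing and ranks. -/

set_option autoImplicit false

namespace Pool.Agent.H453.EN

open NumberField IsDedekindDomain Complex
open Pool.Agent.H341R2.EC
open Pool.Agent.R433.MD
open Pool.Agent.R333.BR (lf_one)
open Pool.Agent.N19.BR (lf_ne_zero_one)
open Pool.Agent.H453.MC (twist_elliptic ext_restrict)

section fields
variable {k : Type} [Field k] [NumberField k] {K : Type} [Field K] [NumberField K] [Algebra k K]

theorem no_posB (hK : ¬ FacB (Module.finrank k K) (⟨K⟩ : Ext k)) : NP k K := by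
  intro F M _ _ _ _ h
  have h1 := facB_of_pos (k := F) (M := M) ⟨K⟩ (IsScalarTower.toAlgHom F K M) h
  have h2 := facB_restrict (k := k) (m := Module.finrank F K) (n := Module.finrank k K) ⟨F⟩ ⟨K⟩ h1
    (Module.finrank_mul_finrank k F K).le
  rw [ext_restrict] at h2
  exact hK h2

end fields

section
variable {k : Type} [Field k] [NumberField k]

theorem order_prod {ι : Type} (t : Finset ι) (f : ι → ℂ → ℂ) (m : ι → ℕ) {z : ℂ}
    (hf : ∀ i ∈ t, AnalyticAt ℂ (f i) z) (hm : ∀ i ∈ t, analyticOrderAt (f i) z = m i) :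
    analyticOrderAt (fun s => ∏ i ∈ t, f i s) z = ((∑ i ∈ t, m i : ℕ) : ℕ∞) := by
  classical
  induction t using Finset.induction_on with
  | empty =>
    simp only [Finset.prod_empty, Finset.sum_empty, Nat.cast_zero]
    rw [AnalyticAt.analyticOrderAt_eq_zero analyticAt_const]
    exact one_ne_zero
  | insert a t ha ih =>
    have h1 : (fun s => ∏ i ∈ insert a t, f i s) = f a * fun s => ∏ i ∈ t, f i s := by
      funext s
      rw [Finset.prod_insert ha]
      rfl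
    have h2 : AnalyticAt ℂ (fun s => ∏ i ∈ t, f i s) z :=
      Finset.analyticAt_fun_prod _ fun i hi => hf i (Finset.mem_insert_of_mem hi)
    rw [h1, analyticOrderAt_mul (hf a (Finset.mem_insert_self _ _)) h2,
      ih (fun i hi => hf i (Finset.mem_insert_of_mem hi))
        (fun i hi => hm i (Finset.mem_insert_of_mem hi)), hm a (Finset.mem_insert_self _ _),
      Finset.sum_insert ha]
    push_cast
    rfl

/-- multiplication by a function that does not vanish -/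
theorem order_mul_ne {f g : ℂ → ℂ} {z : ℂ} (hf : AnalyticAt ℂ f z) (hg : AnalyticAt ℂ g z)
    (hg0 : g z ≠ 0) : analyticOrderAt (fun s => f s * g s) z = analyticOrderAt f z := by
  have h1 : (fun s => f s * g s) = f * g := rfl
  rw [h1, analyticOrderAt_mul hf hg, hg.analyticOrderAt_eq_zero.2 hg0, add_zero]

/-- **Orders and ranks.** -/
theorem order_rank {n : ℕ} {K : Ext k} (h : FacB n K) (C : AddSubmonoid (ℕ × ℕ))
    (E : WeierstrassCurve k) (hE : E.IsElliptic) {U : Set ℂ} (hU : ∀ s ∈ U, 1 < s.re ∨ s = 1)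
    (h1U : 1 ∈ U)
    (hc : ∀ Z : Ext k, Module.finrank k Z.F < n → ∀ D : 𝓞 Z.F, D ≠ 0 →
      ∃ Λ : ℂ → ℂ, AnalyticOnNhd ℂ Λ U ∧
        (∀ W : HeightOneSpectrum (𝓞 Z.F) → WeierstrassCurve (𝓞 Z.F),
          (∀ v, IsMinAt (twist (E.map (algebraMap k Z.F)) (D : Z.F)) v (W v)) →
          ∀ s : ℂ, 3 / 2 < s.re → Λ s = LL W s) ∧
        ∃ m r : ℕ, analyticOrderAt Λ 1 = m ∧ rkT E Z D = r ∧ (m, r) ∈ C) :
    ∃ Λ : ℂ → ℂ, AnalyticOnNhd ℂ Λ U ∧
      (∀ V : HeightOneSpectrum (𝓞 K.F) → WeierstrassCurve (𝓞 K.F),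
        (∀ v, IsMinAt (E.map (algebraMap k K.F)) v (V v)) →
        ∀ s : ℂ, 3 / 2 < s.re → Λ s = LL V s) ∧
      ∃ m r : ℕ, analyticOrderAt Λ 1 = m ∧ rkE E K = r ∧ (m, r) ∈ C := by
  classical
  obtain ⟨ι, hι, Z, D, hZ, -, hL⟩ := h
  have hEK : (E.map (algebraMap k K.F)).IsElliptic := inferInstance
  have hT : ∀ i, (twist (E.map (algebraMap k (Z i).F)) (D i : (Z i).F)).IsElliptic := fun i =>
    twist_elliptic inferInstance (by
      rw [Ne, FaithfulSMul.algebraMap_eq_zero_iff]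
      exact (hZ i).1)
  obtain ⟨V, hV⟩ := exists_minimal (E.map (algebraMap k K.F)) hEK
  choose W hW using fun i => exists_minimal _ (hT i)
  choose Λ hΛ hΛL m r hm hr hC using fun i => hc (Z i) (hZ i).2 (D i) (hZ i).1
  obtain ⟨N, hN, hrel⟩ := (hL E hE).1 V hV W hW
  have hne : ∀ {F : Type} [Field F] [NumberField F]
      (V : HeightOneSpectrum (𝓞 F) → WeierstrassCurve (𝓞 F)) (s : ℂ), (1 < s.re ∨ s = 1) →
      ∀ v, lf V s v ≠ 0 := by
    rintro F _ _ V s (hs | rfl) v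
    · exact lf_ne_zero_one V hs v
    · exact lf_one V v
  have hden : ∀ s : ℂ, AnalyticAt ℂ (fun s => ∏ v ∈ (finite_dv (K := K.F) hN).toFinset, lf V s v) s :=
    fun s => Finset.analyticAt_fun_prod _ fun v _ => analytic_lf V v s
  have hden0 : ∀ s : ℂ, (1 < s.re ∨ s = 1) →
      ∏ v ∈ (finite_dv (K := K.F) hN).toFinset, lf V s v ≠ 0 := fun s hs =>
    Finset.prod_ne_zero_iff.2 fun v _ => hne V s hs v
  have hnum : ∀ i, ∀ s : ℂ, AnalyticAt ℂ
      (fun s => ∏ v ∈ (finite_dv (K := (Z i).F) hN).toFinset, lf (W i) s v) s := fun i s =>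
    Finset.analyticAt_fun_prod _ fun v _ => analytic_lf (W i) v s
  have hnum0 : ∀ i, ∀ s : ℂ, (1 < s.re ∨ s = 1) →
      ∏ v ∈ (finite_dv (K := (Z i).F) hN).toFinset, lf (W i) s v ≠ 0 := fun i s hs =>
    Finset.prod_ne_zero_iff.2 fun v _ => hne (W i) s hs v
  refine ⟨fun s => (∏ i, (Λ i s * ∏ v ∈ (finite_dv (K := (Z i).F) hN).toFinset, lf (W i) s v)) *
    (∏ v ∈ (finite_dv (K := K.F) hN).toFinset, lf V s v)⁻¹, fun s hs => ?_, fun V' hV' s hs => ?_,
    ∑ i, m i, ∑ i, r i, ?_, ?_, ?_⟩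
  · exact (Finset.analyticAt_fun_prod _ fun i _ => (hΛ i s hs).fun_mul (hnum i s)).fun_mul
      ((hden s).fun_inv (hden0 s (hU s hs)))
  · have h1 := hrel N hN dvd_rfl s hs
    rw [LN_eq hEK hV hN hs] at h1
    have h2 : LL V' s = LL V s := Pool.Agent.N19.BR.LL_minimal hEK hV' hV s
    have h3 := hden0 s (Or.inl (by linarith))
    change (∏ i, (Λ i s * ∏ v ∈ (finite_dv (K := (Z i).F) hN).toFinset, lf (W i) s v)) *
      (∏ v ∈ (finite_dv (K := K.F) hN).toFinset, lf V s v)⁻¹ = LL V' s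
    rw [← div_eq_mul_inv, div_eq_iff h3, h2, h1]
    refine Finset.prod_congr rfl fun i _ => ?_
    rw [hΛL i (W i) (hW i) s hs, LN_eq (hT i) (hW i) hN hs]
  · have hfac : ∀ i, AnalyticAt ℂ (fun s => Λ i s *
        ∏ v ∈ (finite_dv (K := (Z i).F) hN).toFinset, lf (W i) s v) 1 := fun i =>
      (hΛ i 1 h1U).fun_mul (hnum i 1)
    rw [order_mul_ne (Finset.analyticAt_fun_prod _ fun i _ => hfac i)
      ((hden 1).fun_inv (hden0 1 (Or.inr rfl))) (inv_ne_zero (hden0 1 (Or.inr rfl)))]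
    exact order_prod Finset.univ _ m (fun i _ => hfac i) fun i _ => by
      rw [order_mul_ne (hΛ i 1 h1U) (hnum i 1) (hnum0 i 1 (Or.inr rfl)), hm i]
  · exact (hL E hE).2 r hr
  · have h1 : ((∑ i, m i, ∑ i, r i) : ℕ × ℕ) = ∑ i, (m i, r i) := by
      rw [Prod.ext_iff]
      simp [Prod.fst_sum, Prod.snd_sum]
    rw [h1]
    exact C.sum_mem fun i _ => hC i

end

end Pool.Agent.H453.EN
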