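import Pool.Agent.H453.EN.Inc

/-! Relations between incomplete `L`-series. -/

set_option autoImplicit false

namespace Pool.Agent.H453.EN

open NumberField IsDedekindDomain Complex Polynomial
open Pool.Agent.H921R2.TatePole (nm two_le_nm nm_summable)
open Pool.Agent.H341R2.EC
open Pool.Agent.H341R2 (finite_v card_v chi)
open Pool.Agent.R433.MD
open Pool.Agent.R333.BR (nh_congr lf_one)
open Pool.Agent.N19.BR (lf_ne_zero_one)
open Pool.Agent.H453.MC (lf_ext local_id comb2 rc_two isSquare_ext)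

section
variable {K : Type} [Field K] [NumberField K]

/-- **Relations between L-series.** -/
theorem relN {ι : Type} [Fintype ι] (F : ι → Type) [∀ i, Field (F i)]
    [∀ i, NumberField (F i)] [∀ i, Algebra K (F i)] (a b : ι → ℕ) {D : 𝓞 K} (hD0 : D ≠ 0)
    (hD : ∀ (k : Type) [Field k] [Finite k] (φ : 𝓞 K →+* k), φ D ≠ 0 →
      ∑ i, a i * nh (F i) φ = ∑ i, b i * nh (F i) φ)
    (E : WeierstrassCurve K) (hE : E.IsElliptic)
    (V : ∀ i, HeightOneSpectrum (𝓞 (F i)) → WeierstrassCurve (𝓞 (F i)))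
    (hV : ∀ i w, IsMinAt (E.map (algebraMap K (F i))) w (V i w)) :
    ∃ N0 : ℕ, N0 ≠ 0 ∧ ∀ N : ℕ, N ≠ 0 → N0 ∣ N → ∀ s : ℂ, 3 / 2 < s.re →
      ∏ i, LN N (V i) s ^ a i = ∏ i, LN N (V i) s ^ b i := by
  classical
  obtain ⟨W, hW, hWΔ⟩ := exists_model E hE
  have h6 : (6 : 𝓞 K) ≠ 0 := by norm_num
  obtain ⟨N0, hN0, hbad⟩ := exists_nat (mul_ne_zero (mul_ne_zero h6 hWΔ) hD0)
  -- local products
  let A : (ι → ℕ) → ℂ → HeightOneSpectrum (𝓞 K) → ℂ := fun e s v =>
    ∏ i, (∏ w : Fib (F i) v, (lf (V i) s w.1)⁻¹) ^ e i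
  have hgood : ∀ (s : ℂ) (v : HeightOneSpectrum (𝓞 K)), ¬ Dv N0 v → A a s v = A b s v := by
    intro s v hv
    have hv' : 6 * W.Δ * D ∉ v.asIdeal := fun h => hv (hbad v h)
    have hvD : D ∉ v.asIdeal := fun h => hv' (v.asIdeal.mul_mem_left _ h)
    have hvΔ : W.Δ ∉ v.asIdeal := fun h =>
      hv' (v.asIdeal.mul_mem_right _ (v.asIdeal.mul_mem_left _ h))
    have hv6 : (6 : 𝓞 K) ∉ v.asIdeal := fun h =>
      hv' (v.asIdeal.mul_mem_right _ (v.asIdeal.mul_mem_right _ h))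
    obtain ⟨g, hg⟩ := exists_count v W
    let G : ℕ → ℂ := fun n => (1 - (((nm v : ℤ) ^ n - (g n : ℤ) : ℤ) : ℂ) *
      ((nm v ^ n : ℕ) : ℂ) ^ (-s) + ((nm v ^ n : ℕ) : ℂ) ^ (1 - 2 * s))⁻¹
    have hA : ∀ e : ι → ℕ, A e s v = ∏ i, (∏ w : Fib (F i) v, G (fdeg w)) ^ e i := by
      intro e
      refine Finset.prod_congr rfl fun i _ => ?_
      congr 1
      refine Finset.prod_congr rfl fun w _ => ?_
      rw [lf_good hW hv6 hvΔ hg (hV i) w s]
    rw [hA, hA]
    refine comb (fun i => Fib (F i) v) (fun i w => fdeg w) (fun i w => fdeg_pos w) a b ?_ G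
    intro m hm
    obtain ⟨k, iF, iFin, iA, hk⟩ := exists_ext (𝓞 K ⧸ v.asIdeal) hm
    have h1 := hD k (base v k) (by
      rw [base, RingHom.comp_apply]
      intro h
      rw [map_eq_zero_iff _ (algebraMap (𝓞 K ⧸ v.asIdeal) k).injective,
        Ideal.Quotient.eq_zero_iff_mem] at h
      exact hvD h)
    simp only [nh_eq, hk] at h1
    exact h1
  refine ⟨N0, hN0, fun N hN hNN s hs => ?_⟩
  let AN : (ι → ℕ) → HeightOneSpectrum (𝓞 K) → ℂ := fun e v =>
    ∏ i, (∏ w : Fib (F i) v, ef N (V i) s w.1) ^ e i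
  have hprod : ∀ e : ι → ℕ, HasProd (AN e) (∏ i, LN N (V i) s ^ e i) := by
    intro e
    refine hasProd_prod fun i _ => ?_
    have hEi : (E.map (algebraMap K (F i))).IsElliptic := inferInstance
    exact hasProd_pow (hasProd_fib (hasProd_LN hEi (hV i) hN hs)) (e i)
  have hdiv : ∀ (e : ι → ℕ) (v : HeightOneSpectrum (𝓞 K)), Dv N v → AN e v = 1 := by
    intro e v hv
    refine Finset.prod_eq_one fun i _ => ?_
    rw [Finset.prod_eq_one, one_pow]
    intro w _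
    exact if_pos ((dv_fib w).2 hv)
  have hndiv : ∀ (e : ι → ℕ) (v : HeightOneSpectrum (𝓞 K)), ¬ Dv N v → AN e v = A e s v := by
    intro e v hv
    refine Finset.prod_congr rfl fun i _ => ?_
    congr 1
    refine Finset.prod_congr rfl fun w _ => ?_
    exact if_neg (fun h => hv ((dv_fib w).1 h))
  refine (hprod a).unique ((hprod b).congr_fun fun v => ?_)
  by_cases hv : Dv N v
  · rw [hdiv a v hv, hdiv b v hv]
  · rw [hndiv a v hv, hndiv b v hv]
    exact hgood s v (fun h => hv (dv_of_dvd hNN h))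

variable {L : Type} [Field L] [NumberField L] [Algebra K L] [IsGalois K L]

/-- relations of permutation characters give relations of incomplete `L`-series -/
theorem L_relN {ι : Type} [Fintype ι] (Z : ι → Ext K) (f : ∀ i, (Z i).F →ₐ[K] L) (a b : ι → ℕ)
    (h : ∀ g : Gal(L/K), ∑ i, (a i : ℤ) * fx (f i).fieldRange.fixingSubgroup g =
      ∑ i, (b i : ℤ) * fx (f i).fieldRange.fixingSubgroup g)
    (E : WeierstrassCurve K) (hE : E.IsElliptic)
    (VZ : ∀ i, HeightOneSpectrum (𝓞 (Z i).F) → WeierstrassCurve (𝓞 (Z i).F))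
    (hVZ : ∀ i w, IsMinAt (E.map (algebraMap K (Z i).F)) w (VZ i w)) :
    ∃ N0 : ℕ, N0 ≠ 0 ∧ ∀ N : ℕ, N ≠ 0 → N0 ∣ N → ∀ s : ℂ, 3 / 2 < s.re →
      ∏ i, LN N (VZ i) s ^ a i = ∏ i, LN N (VZ i) s ^ b i := by
  classical
  obtain ⟨D, hD0, hD⟩ := frob_count K L
  refine relN (fun i => (Z i).F) a b hD0 ?_ E hE VZ hVZ
  intro k _ _ φ hφ
  obtain ⟨g, hg⟩ := hD k φ hφ
  have h4 : ∀ i : ι, nh (Z i).F φ =
      Nat.card {c : Gal(L/K) ⧸ (f i).fieldRange.fixingSubgroup // g • c = c} := fun i => by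
    rw [← hg (f i).fieldRange]
    exact nh_congr (AlgEquiv.ofInjectiveField (f i)) φ
  simp only [h4]
  have h5 := h g
  simp only [fx] at h5
  exact_mod_cast h5

end

section
variable {F : Type} [Field F] [NumberField F]

/-- **The `L`-series over a quadratic extension.** -/
theorem quad_relN {D : 𝓞 F} (hD0 : D ≠ 0) {Z : Type} [Field Z] [NumberField Z] [Algebra F Z]
    (B : PowerBasis F Z) {α : 𝓞 Z} (hα : (α : Z) = B.gen) (hmin : minpoly (𝓞 F) α = X ^ 2 - C D)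
    (E : WeierstrassCurve F) (hE : E.IsElliptic)
    {V0 VD : HeightOneSpectrum (𝓞 F) → WeierstrassCurve (𝓞 F)}
    {VZ : HeightOneSpectrum (𝓞 Z) → WeierstrassCurve (𝓞 Z)}
    (hV0 : ∀ v, IsMinAt (twist E ((1 : 𝓞 F) : F)) v (V0 v))
    (hVD : ∀ v, IsMinAt (twist E (D : F)) v (VD v))
    (hTD : (twist E (D : F)).IsElliptic) (hT1 : (twist E ((1 : 𝓞 F) : F)).IsElliptic)
    (hVZ : ∀ w, IsMinAt (E.map (algebraMap F Z)) w (VZ w)) :
    ∃ N0 : ℕ, N0 ≠ 0 ∧ ∀ N : ℕ, N ≠ 0 → N0 ∣ N → ∀ s : ℂ, 3 / 2 < s.re →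
      LN N VZ s = LN N V0 s * LN N VD s := by
  classical
  obtain ⟨l, P, Q, hl, hP, hQ, hPQ⟩ := exists_integral E hE
  obtain ⟨D', hD'0, hnh⟩ := nh_pure B hα hmin
  have h60 : (6 : 𝓞 F) ≠ 0 := by norm_num
  obtain ⟨N0, hN0, hbad⟩ := exists_nat (mul_ne_zero (mul_ne_zero h60 hPQ) (mul_ne_zero hD0 hD'0))
  have hmodel : IsModel E (mdl P Q 1) := by
    have h1 := isModel_mdl E hl hP hQ 1
    have e1 : ((1 : 𝓞 F) : F) = 1 := map_one (algebraMap (𝓞 F) F)
    rw [e1, twist_one, isModel_smul] at h1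
    exact h1
  -- the two products
  let A : ℂ → HeightOneSpectrum (𝓞 F) → ℂ := fun s v => ∏ w : Fib Z v, (lf VZ s w.1)⁻¹
  let A' : ℂ → HeightOneSpectrum (𝓞 F) → ℂ := fun s v => (lf V0 s v)⁻¹ * (lf VD s v)⁻¹
  have hgood : ∀ (s : ℂ) (v : HeightOneSpectrum (𝓞 F)), ¬ Dv N0 v → A s v = A' s v := by
    intro s v hv
    have hv' : 6 * (P ^ 3 - Q ^ 2) * (D * D') ∉ v.asIdeal := fun h => hv (hbad v h)
    have hvD : D ∉ v.asIdeal := fun h => hv'
      (v.asIdeal.mul_mem_left _ (v.asIdeal.mul_mem_right _ h))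
    have hvD' : D' ∉ v.asIdeal := fun h => hv'
      (v.asIdeal.mul_mem_left _ (v.asIdeal.mul_mem_left _ h))
    have hvPQ : P ^ 3 - Q ^ 2 ∉ v.asIdeal := fun h =>
      hv' (v.asIdeal.mul_mem_right _ (v.asIdeal.mul_mem_left _ h))
    have hv6 : (6 : 𝓞 F) ∉ v.asIdeal := fun h =>
      hv' (v.asIdeal.mul_mem_right _ (v.asIdeal.mul_mem_right _ h))
    have hv1 : (1 : 𝓞 F) ∉ v.asIdeal := fun h => v.isPrime.ne_top (v.asIdeal.eq_top_iff_one.2 h)
    have hvΔ : (mdl P Q 1).Δ ∉ v.asIdeal := by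
      intro h
      have h1 : 6 ^ 12 * (1 : 𝓞 F) ^ 6 * (P ^ 3 - Q ^ 2) ∈ v.asIdeal := by
        rw [← mdl_Δ]
        exact v.asIdeal.mul_mem_left _ h
      rcases v.isPrime.mem_or_mem h1 with h2 | h2
      · rcases v.isPrime.mem_or_mem h2 with h3 | h3
        · exact hv6 (v.isPrime.mem_of_pow_mem _ h3)
        · exact hv1 (v.isPrime.mem_of_pow_mem _ h3)
      · exact hvPQ h2
    obtain ⟨h0Δ, h0⟩ := count_good hl hP hQ (hV0 v) hv6 hv1 hvPQ
    obtain ⟨hDΔ, hDc⟩ := count_good hl hP hQ (hVD v) hv6 hvD hvPQ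
    have hchi1 : chi (1 : 𝓞 F) v = 1 := by
      unfold chi
      rw [map_one, map_one]
    rw [hchi1, one_mul] at h0
    have hVm : aff (red v (V0 v)) = aff (red v (mdl P Q 1)) := by
      have h1 := isModel_mdl E hl hP hQ 1
      exact aff_model (hV0 v).1 h1 h0Δ hvΔ hv6
    set a : ℤ := (nm v : ℤ) - aff (red v (mdl P Q 1)) with ha
    have hc : csumv P Q v = -a := by
      rw [ha, ← hVm, h0]
      ring
    have hq := two_le_nm v
    have hlf0 : lf V0 s v = 1 - (a : ℂ) * ((nm v : ℕ) : ℂ) ^ (-s) +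
        ((nm v : ℕ) : ℂ) ^ (1 - 2 * s) := by
      unfold lf trc dlt
      rw [if_neg h0Δ, hVm, one_mul]
    have hlfD : lf VD s v = 1 - ((chi D v * a : ℤ) : ℂ) * ((nm v : ℕ) : ℂ) ^ (-s) +
        ((nm v : ℕ) : ℂ) ^ (1 - 2 * s) := by
      unfold lf trc dlt
      rw [if_neg hDΔ, hDc, hc, one_mul]
      congr 4
      ring
    let G : ℕ → ℂ := fun n => (1 - ((Pool.Agent.H82R3.EK.luc a (nm v) n : ℤ) : ℂ) *
      ((nm v ^ n : ℕ) : ℂ) ^ (-s) + ((nm v ^ n : ℕ) : ℂ) ^ (1 - 2 * s))⁻¹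
    have hG1 : G 1 = (lf V0 s v)⁻¹ := by
      rw [hlf0]
      simp only [G, Pool.Agent.H82R3.EK.luc, pow_one]
    have hAv : A s v = ∏ w : Fib Z v, G (fdeg w) :=
      Finset.prod_congr rfl fun w _ => by rw [lf_ext hmodel hv6 hvΔ hVZ w s]
    -- square roots
    have h2v : (2 : 𝓞 F ⧸ v.asIdeal) ≠ 0 := by
      have h6' : (6 : 𝓞 F ⧸ v.asIdeal) ≠ 0 := by
        have := mk_ne hv6
        rwa [map_ofNat] at this
      intro h
      apply h6'
      have : (6 : 𝓞 F ⧸ v.asIdeal) = 3 * 2 := by norm_num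
      rw [this, h, mul_zero]
    have hmkD := mk_ne hvD
    have hsum : ∀ m, 0 < m → ∃ (k : Type) (_ : Field k) (_ : Finite k)
        (_ : Algebra (𝓞 F ⧸ v.asIdeal) k), Module.finrank (𝓞 F ⧸ v.asIdeal) k = m ∧
        ∑ w : Fib Z v, (if fdeg w ∣ m then fdeg w else 0) =
          if IsSquare (algebraMap (𝓞 F ⧸ v.asIdeal) k (Ideal.Quotient.mk v.asIdeal D))
            then 2 else 0 := by
      intro m hm
      obtain ⟨k, iF, iFin, iA, hk⟩ := exists_ext (𝓞 F ⧸ v.asIdeal) hm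
      refine ⟨k, iF, iFin, iA, hk, ?_⟩
      have hinj := (algebraMap (𝓞 F ⧸ v.asIdeal) k).injective
      have h1 := (hnh k (base v k) (by
        rw [base, RingHom.comp_apply]
        intro h
        rw [map_eq_zero_iff _ hinj, Ideal.Quotient.eq_zero_iff_mem] at h
        exact hvD' h)).2
      rw [nh_eq, hk] at h1
      rw [h1]
      have h3 : base v k D = algebraMap (𝓞 F ⧸ v.asIdeal) k (Ideal.Quotient.mk v.asIdeal D) := rfl
      rw [h3]
      refine rc_two ?_ ?_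
      · intro h
        apply h2v
        apply hinj
        rw [map_zero, ← h]
        exact map_ofNat _ 2
      · rwa [Ne, map_eq_zero_iff _ hinj]
    have hval : A s v = (lf V0 s v)⁻¹ * (lf VD s v)⁻¹ := by
      rw [hAv]
      rcases quadraticChar_dichotomy hmkD with hχ | hχ
      · -- split
        have hχ' : chi D v = 1 := hχ
        have hsq : IsSquare (Ideal.Quotient.mk v.asIdeal D) :=
          (quadraticChar_one_iff_isSquare hmkD).1 hχ
        rw [hlfD, hχ', one_mul, ← hlf0, ← hG1]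
        rw [comb2 (fun w : Fib Z v => fdeg w) (fun _ : Fin 2 => 1) (fun w => fdeg_pos w)
          (fun _ => one_pos) (by
            intro m hm
            obtain ⟨k, _, _, _, hk, h1⟩ := hsum m hm
            rw [h1, if_pos (hsq.map _)]
            simp) G]
        simp [pow_two]
      · have hχ' : chi D v = -1 := hχ
        have hsq : ¬ IsSquare (Ideal.Quotient.mk v.asIdeal D) := by
          rwa [← quadraticChar_neg_one_iff_not_isSquare]
        rw [hlfD, hχ', neg_one_mul, hlf0]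
        rw [comb2 (fun w : Fib Z v => fdeg w) (fun _ : Unit => 2) (fun w => fdeg_pos w)
          (fun _ => two_pos) (by
            intro m hm
            obtain ⟨k, _, _, _, hk, h1⟩ := hsum m hm
            rw [h1]
            simp only [isSquare_ext (l := k) h2v hmkD hsq, hk]
            simp) G]
        rw [← mul_inv, local_id (by omega) a s]
        simp [G]
    exact hval
  refine ⟨N0, hN0, fun N hN hNN s hs => ?_⟩
  have hEZ : (E.map (algebraMap F Z)).IsElliptic := inferInstance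
  have h1 : HasProd (fun v : HeightOneSpectrum (𝓞 F) => ∏ w : Fib Z v, ef N VZ s w.1) (LN N VZ s) :=
    hasProd_fib (hasProd_LN hEZ hVZ hN hs)
  have h2 := (hasProd_LN hT1 hV0 hN hs).mul (hasProd_LN hTD hVD hN hs)
  refine h1.unique (h2.congr_fun fun v => ?_)
  by_cases hv : Dv N v
  · have h3 : (∏ w : Fib Z v, ef N VZ s w.1) = 1 :=
      Finset.prod_eq_one fun w _ => if_pos ((dv_fib w).2 hv)
    have h4 : ef N V0 s v = 1 := if_pos hv
    have h5 : ef N VD s v = 1 := if_pos hv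
    rw [h3, h4, h5, mul_one]
  · have h3 : (∏ w : Fib Z v, ef N VZ s w.1) = A s v :=
      Finset.prod_congr rfl fun w _ => if_neg (fun h => hv ((dv_fib w).1 h))
    have h4 : ef N V0 s v = (lf V0 s v)⁻¹ := if_neg hv
    have h5 : ef N VD s v = (lf VD s v)⁻¹ := if_neg hv
    rw [h3, h4, h5]
    exact hgood s v (fun h => hv (dv_of_dvd hNN h))

end

end Pool.Agent.H453.EN
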