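import Pool.Agent.H453.EN.Fac

/-! The structure of extensions over which the `L`-series are not products. -/

set_option autoImplicit false

namespace Pool.Agent.H453.EN

open NumberField IsDedekindDomain
open Pool.Agent.R433.MD (fx Ext)
open Pool.Agent.H453.MC (ext_restrict index_fix core_trivial exists_elementary_p
  exists_elementary_solvable relIndex_sup_eq)
open IntermediateField

section fields
variable {k : Type} [Field k] [NumberField k] {K : Type} [Field K] [NumberField K] [Algebra k K]

/-- no decompositions -/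
def NP (k : Type) [Field k] (K : Type) [Field K] [Algebra k K] : Prop :=
  ∀ (F : IntermediateField k K) (M : Type) [Field M] [NumberField M] [Algebra K M]
    [IsGalois F M], ¬ Pos (Module.finrank F K) (IsScalarTower.toAlgHom F K M).fieldRange.fixingSubgroup

theorem no_pos (hK : ¬ FacN (Module.finrank k K) (⟨K⟩ : Ext k)) : NP k K := by
  intro F M _ _ _ _ h
  have h1 := facN_of_pos (k := F) (M := M) ⟨K⟩ (IsScalarTower.toAlgHom F K M) h
  have h2 := facN_restrict (k := k) (m := Module.finrank F K) (n := Module.finrank k K) ⟨F⟩ ⟨K⟩ h1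
    (Module.finrank_mul_finrank k F K).le
  rw [ext_restrict] at h2
  exact hK h2

/-- **Elementary abelian normal subgroups.** -/
theorem no_elementary (hK : NP k K) (F : IntermediateField k K)
    (M : Type) [Field M] [NumberField M] [Algebra K M] [IsGalois F M]
    {A : Subgroup Gal(M/F)} (hA : A.Normal) (hcomm : ∀ a ∈ A, ∀ b ∈ A, a * b = b * a)
    (hexp : ∀ a ∈ A, a ^ 2 = 1) :
    A ≤ (IsScalarTower.toAlgHom F K M).fieldRange.fixingSubgroup := by
  by_contra hAH
  refine hK F M ?_
  rw [← index_fix F M]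
  exact general_pos _ A hA hcomm hexp hAH

/-- **Normal 2-subgroups.** -/
theorem two_radical (hK : NP k K) (F : IntermediateField k K)
    (M : Type) [Field M] [NumberField M] [Algebra K M] [IsNormalClosure F K M] [IsGalois F M]
    {T : Subgroup Gal(M/F)} (hT : T.Normal) (h2 : IsPGroup 2 T) : T = ⊥ := by
  by_contra hT1
  obtain ⟨A, -, hAn, hcomm, hexp, hA1⟩ := exists_elementary_p hT Nat.prime_two h2 hT1
  exact hA1 (core_trivial F M hAn (no_elementary hK F M hAn hcomm hexp))

/-- **Solvable extensions.** -/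
theorem solvable_case (hK : NP k K) (F : IntermediateField k K)
    (M : Type) [Field M] [NumberField M] [Algebra K M] [IsNormalClosure F K M] [IsGalois F M]
    [Group.IsSolvable Gal(M/F)] (hF : Module.finrank F K ≠ 1) :
    ∃ p : ℕ, p.Prime ∧ p ≠ 2 ∧ p ∣ Module.finrank F K ∧
      ((∀ L : IntermediateField F K, L = ⊥ ∨ L = ⊤) → ∃ d, Module.finrank F K = p ^ d) := by
  set H := (IsScalarTower.toAlgHom F K M).fieldRange.fixingSubgroup with hH
  have hidx : H.index = Module.finrank F K := index_fix F M
  have hnt : Nontrivial Gal(M/F) := by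
    by_contra hcon
    rw [not_nontrivial_iff_subsingleton] at hcon
    apply hF
    rw [← hidx, Subgroup.index_eq_one]
    exact Subsingleton.elim _ _
  obtain ⟨p, A, hp, hAn, hcomm, hexp, hA1⟩ := exists_elementary_solvable (G := Gal(M/F))
  have hAH : ¬ A ≤ H := fun h => hA1 (core_trivial F M hAn h)
  have hp2 : p ≠ 2 := by
    rintro rfl
    exact hAH (no_elementary hK F M hAn hcomm hexp)
  have : Fact p.Prime := ⟨hp⟩
  have hpA : IsPGroup p A := fun a => ⟨1, by
    rw [pow_one]
    exact Subtype.ext (hexp a a.2)⟩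
  obtain ⟨n, hn⟩ := IsPGroup.iff_card.1 hpA
  have h2 : H.relIndex A ∣ p ^ n := by
    rw [← hn]
    exact (H.subgroupOf A).index_dvd_card
  obtain ⟨d, -, hd⟩ := (Nat.dvd_prime_pow hp).1 h2
  have hd0 : d ≠ 0 := by
    rintro rfl
    rw [pow_zero, Subgroup.relIndex_eq_one] at hd
    exact hAH hd
  have hdiv : H.relIndex A ∣ H.index := by
    rw [← relIndex_sup_eq H A, ← Subgroup.relIndex_mul_index (le_sup_right : H ≤ A ⊔ H)]
    exact dvd_mul_right _ _
  refine ⟨p, hp, hp2, ?_, fun hmax => ?_⟩
  · rw [← hidx]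
    refine dvd_trans ?_ hdiv
    rw [hd]
    exact dvd_pow_self p hd0
  -- `A ⊔ H` is the whole group
  have htop : A ⊔ H = ⊤ := by
    let L : IntermediateField F K := (fixedField (A ⊔ H)).comap (IsScalarTower.toAlgHom F K M)
    rcases hmax L with h | h
    · have h1 : fixedField (A ⊔ H) = ⊥ := by
        rw [eq_bot_iff]
        intro x hx
        have h2 : x ∈ fixedField H := fixedField_antitone le_sup_right hx
        rw [hH, IsGalois.fixedField_fixingSubgroup] at h2
        obtain ⟨y, rfl⟩ := h2
        have h3 : y ∈ L := hx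
        rw [h, mem_bot] at h3
        obtain ⟨z, rfl⟩ := h3
        rw [mem_bot]
        exact ⟨z, rfl⟩
      rw [← fixingSubgroup_fixedField (A ⊔ H), h1, fixingSubgroup_bot]
    · exfalso
      apply hAH
      have h1 : (IsScalarTower.toAlgHom F K M).fieldRange ≤ fixedField (A ⊔ H) := by
        rintro _ ⟨y, rfl⟩
        have h2 : y ∈ L := by rw [h]; trivial
        exact h2
      rw [le_iff_le] at h1
      exact le_sup_left.trans h1
  have h1 : H.index = H.relIndex A := by
    rw [← relIndex_sup_eq H A, htop, Subgroup.relIndex_top_right]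
  exact ⟨d, by rw [← hidx, h1, hd]⟩

/-- **Automorphisms.** -/
theorem aut_odd (hK : NP k K) : Odd (Nat.card Gal(K/k)) := by
  by_contra hodd
  rw [Nat.not_odd_iff_even, even_iff_two_dvd] at hodd
  have : Fact (Nat.Prime 2) := ⟨Nat.prime_two⟩
  obtain ⟨x, hx⟩ := exists_prime_orderOf_dvd_card' (G := Gal(K/k)) 2 hodd
  set Γ := Subgroup.zpowers x with hΓ
  have hgal : IsGalois (fixedField Γ) K := IsGalois.of_fixed_field K Γ
  let e : Γ ≃* Gal(K/fixedField Γ) := subgroupEquivAlgEquiv Γ
  have hcard : Nat.card Gal(K/fixedField Γ) = 2 := by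
    rw [← Nat.card_congr e.toEquiv, hΓ, Nat.card_zpowers, hx]
  have hsq : ∀ a : Gal(K/fixedField Γ), a ^ 2 = 1 := fun a => by
    rw [← hcard]
    exact pow_card_eq_one'
  have hcomm : ∀ a b : Gal(K/fixedField Γ), a * b = b * a := by
    intro a b
    have h1 := hsq (a * b)
    have h2 := hsq a
    have h3 := hsq b
    rw [pow_two] at h1 h2 h3
    have h4 : a⁻¹ = a := inv_eq_of_mul_eq_one_left h2
    have h5 : b⁻¹ = b := inv_eq_of_mul_eq_one_left h3
    have h6 : (a * b)⁻¹ = a * b := inv_eq_of_mul_eq_one_left h1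
    rw [← h6, mul_inv_rev, h4, h5]
  have h1 := no_elementary hK (fixedField Γ) K (A := ⊤) inferInstance (fun a _ b _ => hcomm a b)
    (fun a _ => hsq a)
  have h2 : (IsScalarTower.toAlgHom (fixedField Γ) K K).fieldRange.fixingSubgroup = ⊥ := by
    have h2 : (IsScalarTower.toAlgHom (fixedField Γ) K K).fieldRange = ⊤ := by
      rw [eq_top_iff]
      intro x _
      exact ⟨x, rfl⟩
    rw [h2, fixingSubgroup_top]
  rw [h2] at h1
  have h3 : Subsingleton Gal(K/fixedField Γ) := by
    refine ⟨fun a b => ?_⟩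
    rw [(Subgroup.mem_bot.1 (h1 (Subgroup.mem_top a))), (Subgroup.mem_bot.1 (h1 (Subgroup.mem_top b)))]
  have h4 : Nat.card Gal(K/fixedField Γ) = 1 := Nat.card_unique
  omega

end fields

end Pool.Agent.H453.EN
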